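import Mathlib
import Pool.Agent.H315R3.ETC.Rigid
import Pool.Agent.TH673.VG.Star

set_option autoImplicit false
set_option linter.unusedSectionVars false

/-!
# Counting in finite quaternionic structures
-/

namespace Pool.Agent.Q6.EV

open Finset
open Pool.Agent.H315R3.ETC Pool.Agent.TH673.VG

open Classical

noncomputable section

/-- the value group -/
def V (S : QData) [Fintype S.G] (a : S.G) : Finset S.G := univ.filter fun x => S.q a x = S.zero

/-- the elements `x` with `q(a,x) = t` -/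
def C (S : QData) [Fintype S.G] (t : S.Q) (a : S.G) : Finset S.G := univ.filter fun x => S.q a x = t

/-- the slots of `t` -/
def X (S : QData) [Fintype S.G] (t : S.Q) : Finset S.G := univ.filter fun a => ∃ x, S.q a x = t

/-- the quaternions with slot `a` -/
def Qs (S : QData) [Fintype S.G] (a : S.G) : Finset S.Q := univ.image (S.q a)

variable {S : QData} (h : IsQuat S) [Fintype S.G]

theorem mem_V {a x : S.G} : x ∈ V S a ↔ S.q a x = S.zero := by simp [V]

theorem mem_C {t : S.Q} {a x : S.G} : x ∈ C S t a ↔ S.q a x = t := by simp [C]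

theorem mem_X {t : S.Q} {a : S.G} : a ∈ X S t ↔ ∃ x, S.q a x = t := by simp [X]

theorem mem_Qs {t : S.Q} {a : S.G} : t ∈ Qs S a ↔ ∃ x, S.q a x = t := by simp [Qs]

include h in
theorem V_symm {a x : S.G} : x ∈ V S a ↔ a ∈ V S x := by rw [mem_V, mem_V, h.qs2]

include h in
theorem one_mem_V (a : S.G) : 1 ∈ V S a := mem_V.2 (q_one h a)

include h in
theorem V_one : V S 1 = univ := by
  ext x
  rw [mem_V]
  exact ⟨fun _ => mem_univ _, fun _ => q_one' h x⟩

include h in
theorem mul_mem_V {a x y : S.G} (hx : x ∈ V S a) (hy : y ∈ V S a) : x * y ∈ V S a :=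
  mem_V.2 (p_mul h (mem_V.1 hx) (mem_V.1 hy))

include h in
theorem card_C {t : S.Q} {a z : S.G} (hz : S.q a z = t) : (C S t a).card = (V S a).card := by
  refine card_nbij' (fun x => x * z) (fun x => x * z) ?_ ?_ ?_ ?_
  · intro x hx
    exact mem_coe.2 (mem_V.2 ((h.qs3 _ _ _).1 ((mem_C.1 (mem_coe.1 hx)).trans hz.symm)))
  · intro x hx
    exact mem_coe.2 (mem_C.2 (by rw [q_shift h _ (mem_V.1 (mem_coe.1 hx)), hz]))
  · intro x _
    exact mul_cancel h x z
  · intro x _
    exact mul_cancel h x z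

include h in
theorem card_CC {t : S.Q} {a b z : S.G} (ha : S.q a z = t) (hb : S.q b z = t) :
    (C S t a ∩ C S t b).card = (V S a ∩ V S b).card := by
  refine card_nbij' (fun x => x * z) (fun x => x * z) ?_ ?_ ?_ ?_
  · intro x hx
    have hx := mem_inter.1 (mem_coe.1 hx)
    exact mem_coe.2 (mem_inter.2 ⟨mem_V.2 ((h.qs3 _ _ _).1 ((mem_C.1 hx.1).trans ha.symm)),
      mem_V.2 ((h.qs3 _ _ _).1 ((mem_C.1 hx.2).trans hb.symm))⟩)
  · intro x hx
    have hx := mem_inter.1 (mem_coe.1 hx)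
    exact mem_coe.2 (mem_inter.2 ⟨mem_C.2 (by rw [q_shift h _ (mem_V.1 hx.1), ha]),
      mem_C.2 (by rw [q_shift h _ (mem_V.1 hx.2), hb])⟩)
  · intro x _
    exact mul_cancel h x z
  · intro x _
    exact mul_cancel h x z

include h in
theorem exists_common {t : S.Q} {a b : S.G} (ha : a ∈ X S t) (hb : b ∈ X S t) :
    ∃ z, S.q a z = t ∧ S.q b z = t := by
  obtain ⟨x, hx⟩ := mem_X.1 ha
  obtain ⟨y, hy⟩ := mem_X.1 hb
  obtain ⟨z, h1, h2⟩ := h.qs4 a x b y (hx.trans hy.symm)
  exact ⟨z, h1 ▸ hx, h2 ▸ hy⟩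

include h in
/-- the number of common quaternions of two slots -/
theorem card_QQ (a b : S.G) :
    (Qs S a ∩ Qs S b).card * (V S a ∩ V S b).card = (V S (a * b)).card := by
  rw [card_eq_sum_card_fiberwise (f := S.q a) (s := V S (a * b)) (t := Qs S a ∩ Qs S b)]
  · rw [sum_const_nat (m := (V S a ∩ V S b).card)]
    intro t ht
    rw [mem_inter, mem_Qs, mem_Qs] at ht
    obtain ⟨z, h1, h2⟩ := exists_common h (mem_X.2 ht.1) (mem_X.2 ht.2)
    rw [← card_CC h h1 h2]
    congr 1
    ext x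
    rw [mem_filter, mem_V, mem_inter, mem_C, mem_C]
    constructor
    · rintro ⟨e1, e2⟩
      have e3 := (q_eq_iff h a b x).2 e1
      exact ⟨e2, by rw [← e3, e2]⟩
    · rintro ⟨e1, e2⟩
      exact ⟨(q_eq_iff h a b x).1 (e1.trans e2.symm), e1⟩
  · intro x hx
    have hx := mem_V.1 (mem_coe.1 hx)
    have e3 := (q_eq_iff h a b x).2 hx
    exact mem_coe.2 (mem_inter.2 ⟨mem_Qs.2 ⟨x, rfl⟩, mem_Qs.2 ⟨x, e3.symm⟩⟩)

/-- double counting -/
theorem double {α β : Type} (A : Finset α) (B : Finset β) (R : α → β → Prop)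
    [∀ a b, Decidable (R a b)] :
    ∑ a ∈ A, (B.filter (fun b => R a b)).card = ∑ b ∈ B, (A.filter (fun a => R a b)).card :=
  Finset.sum_card_bipartiteAbove_eq_sum_card_bipartiteBelow R

include h in
theorem sum_r (a : S.G) : ∑ b, (V S a ∩ V S b).card = ∑ x ∈ V S a, (V S x).card := by
  have h1 := double (univ : Finset S.G) (V S a) (fun b x => x ∈ V S b)
  have h2 : ∀ b, (V S a ∩ V S b) = (V S a).filter (fun x => x ∈ V S b) := fun b => by
    ext x
    rw [mem_inter, mem_filter]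
  have h3 : ∀ x, univ.filter (fun b => x ∈ V S b) = V S x := fun x => by
    ext b
    rw [mem_filter, V_symm h]
    exact ⟨fun h => h.2, fun h => ⟨mem_univ _, h⟩⟩
  rw [sum_congr rfl (fun b _ => by rw [h2 b]), h1]
  exact sum_congr rfl fun x _ => by rw [h3 x]

include h in
theorem sum_X {t : S.Q} {a : S.G} (ha : a ∈ X S t) :
    ∑ b ∈ X S t, (V S a ∩ V S b).card = ∑ z ∈ C S t a, (C S t z).card := by
  have h1 := double (X S t) (C S t a) (fun b z => S.q b z = t)
  have h2 : ∀ b ∈ X S t, (V S a ∩ V S b).card = ((C S t a).filter (fun z => S.q b z = t)).card := by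
    intro b hb
    obtain ⟨z, e1, e2⟩ := exists_common h ha hb
    rw [← card_CC h e1 e2]
    congr 1
    ext x
    rw [mem_inter, mem_filter, mem_C, mem_C]
  have h3 : ∀ z, (X S t).filter (fun b => S.q b z = t) = C S t z := fun z => by
    ext b
    rw [mem_filter, mem_X, mem_C, h.qs2 z b]
    exact ⟨fun h => h.2, fun h => ⟨⟨z, h⟩, h⟩⟩
  rw [sum_congr rfl h2, h1]
  exact sum_congr rfl fun z _ => by rw [h3 z]

/-- the number of slots of `t` orthogonal to `y` -/
def nn (S : QData) [Fintype S.G] (t : S.Q) (y : S.G) : ℕ := ((X S t).filter (fun x => y ∈ V S x)).card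

theorem sum_nn (t : S.Q) : ∑ y, nn S t y = ∑ x ∈ X S t, (V S x).card := by
  have h1 := double (univ : Finset S.G) (X S t) (fun y x => y ∈ V S x)
  unfold nn
  rw [h1]
  refine sum_congr rfl fun x _ => ?_
  congr 1
  ext y
  simp

theorem sum_nn_sq (t : S.Q) :
    ∑ y, nn S t y ^ 2 = ∑ x ∈ X S t, ∑ x' ∈ X S t, (V S x ∩ V S x').card := by
  have h1 : ∀ y, nn S t y ^ 2 = ∑ x ∈ X S t, ∑ x' ∈ X S t,
      (if y ∈ V S x ∧ y ∈ V S x' then 1 else 0) := by
    intro y
    unfold nn
    rw [card_filter, sq, sum_mul_sum]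
    refine sum_congr rfl fun x _ => sum_congr rfl fun x' _ => ?_
    by_cases h1 : y ∈ V S x <;> by_cases h2 : y ∈ V S x' <;> simp [h1, h2]
  rw [sum_congr rfl (fun y _ => h1 y), sum_comm]
  refine sum_congr rfl fun x _ => ?_
  rw [sum_comm]
  refine sum_congr rfl fun x' _ => ?_
  rw [← card_filter]
  congr 1
  ext y
  simp

end

end Pool.Agent.Q6.EV
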