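import Mathlib
import Pool.Agent.Q6.EV.Count

set_option autoImplicit false
set_option linter.unusedSectionVars false

/-!
# The value group of a quaternion
-/

namespace Pool.Agent.Q6.EV

open Finset
open Pool.Agent.H315R3.ETC Pool.Agent.TH673.VG

open Classical

noncomputable section

/-- the elements orthogonal to some slot of `t` -/
def DD (S : QData) [Fintype S.G] (t : S.Q) : Finset S.G :=
  univ.filter fun y => ∃ x ∈ X S t, y ∈ V S x

variable {S : QData} (h : IsQuat S) [Fintype S.G]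

theorem mem_DD {t : S.Q} {y : S.G} : y ∈ DD S t ↔ ∃ x ∈ X S t, y ∈ V S x := by simp [DD]

include h in
theorem q_neg (a b : S.G) : S.q a (S.neg * a * b) = S.q a b := q_shift h b (h.qs1 a)

include h in
theorem D_sup {t : S.Q} {x c u y : S.G} (hxc : S.q x c = t) (hu : S.q x u = S.zero)
    (hy : S.q c y = S.zero) : ∃ s w : S.G, S.q s w = t ∧ S.q s (u * y) = S.zero := by
  have e1 : S.q (u * y) x = S.q (S.neg * x * c * y) y := by
    have a1 : S.q (u * y) x = S.q y x := by
      rw [h.qs2 (u * y) x, q_shift h _ hu, h.qs2 x y]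
    have a2 : S.neg * x * c * y = S.neg * y * (c * x) := by
      rw [mul_assoc S.neg x c, mul_assoc S.neg, mul_assoc S.neg, mul_comm (x * c) y, mul_comm x c]
    have hyc : S.q y c = S.zero := by rw [h.qs2]; exact hy
    rw [a1, h.qs2 (S.neg * x * c * y) y, a2, q_neg h, q_shift h _ hyc]
  obtain ⟨v, h1, h2⟩ := h.qs4 _ _ _ _ e1
  have h3 : S.q (u * (S.neg * x * c)) v = S.zero := by
    have a1 : v ∈ D h ((u * y) * (S.neg * x * c * y)) := by
      rw [← q_eq_iff h, ← h1, e1, h2]
    have a2 : (u * y) * (S.neg * x * c * y) = u * (S.neg * x * c) := by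
      have : (u * y) * (S.neg * x * c * y) = u * (S.neg * x * c) * (y * y) := by
        simp only [mul_comm, mul_left_comm]
      rw [this, h.exp2, mul_one]
    rw [a2] at a1
    exact a1
  refine ⟨x * v, u * (S.neg * x * c), ?_, ?_⟩
  · rw [h.qs2, mul_comm x v, q_shift h _ h3, h.qs2]
    have a1 : u * (S.neg * x * c) = S.neg * x * (u * c) := by
      simp only [mul_comm, mul_left_comm]
    rw [a1, q_neg h, q_shift h _ hu, hxc]
  · rw [h.qs2]
    exact (h.qs3 _ _ _).1 h1

include h in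
theorem D_dec {t : S.Q} {x1 x2 z y : S.G} (h1 : S.q x1 z = t) (h2 : S.q x2 z = t)
    (hy : S.q x2 y = S.zero) :
    ∃ u c : S.G, S.q x1 u = S.zero ∧ S.q x1 c = t ∧ S.q c (u * y) = S.zero := by
  have hw : S.q z (x1 * x2) = S.zero := by
    have : z ∈ D h (x1 * x2) := by rw [← q_eq_iff h, h1, h2]
    rw [h.qs2]
    exact this
  have hyx : S.q y x2 = S.zero := by rw [h.qs2]; exact hy
  have e1 : S.q (y * x1 * z) y = S.q (y * z) (S.neg * z * (x1 * x2)) := by
    have a1 : S.q (y * x1 * z) y = S.q y (S.neg * (x1 * z)) := by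
      have : y * x1 * z = S.neg * y * (S.neg * (x1 * z)) := by
        have b : S.neg * y * (S.neg * (x1 * z)) = y * x1 * z * (S.neg * S.neg) := by
          simp only [mul_comm, mul_left_comm]
        rw [b, h.exp2, mul_one]
      rw [h.qs2 (y * x1 * z) y, this, q_neg h]
    have hz : S.q (S.neg * z * (x1 * x2)) z = S.zero := by
      rw [h.qs2, q_neg h, hw]
    have a2 : S.q (y * z) (S.neg * z * (x1 * x2)) = S.q y (S.neg * (x1 * z)) := by
      rw [h.qs2 (y * z), mul_comm y z, q_shift h _ hz, h.qs2]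
      have : S.neg * z * (x1 * x2) = x2 * (S.neg * (x1 * z)) := by
        simp only [mul_comm, mul_left_comm]
      rw [this, q_shift h _ hyx]
    rw [a1, a2]
  obtain ⟨u, k1, k2⟩ := h.qs4 _ _ _ _ e1
  have hu : S.q x1 u = S.zero := by
    have a1 : u ∈ D h ((y * x1 * z) * (y * z)) := by
      rw [← q_eq_iff h, ← k1, e1, k2]
    have a2 : (y * x1 * z) * (y * z) = x1 := by
      have : (y * x1 * z) * (y * z) = x1 * (y * y) * (z * z) := by
        simp only [mul_comm, mul_left_comm]
      rw [this, h.exp2, h.exp2, mul_one, mul_one]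
    rw [a2] at a1
    exact a1
  refine ⟨u, S.neg * x1 * (u * z), hu, ?_, ?_⟩
  · rw [q_neg h, q_shift h _ hu, h1]
  · rw [h.qs2]
    have a1 : S.neg * x1 * (u * z) = S.neg * (u * y) * (y * x1 * z) := by
      have : S.neg * (u * y) * (y * x1 * z) = S.neg * x1 * (u * z) * (y * y) := by
        simp only [mul_comm, mul_left_comm]
      rw [this, h.exp2, mul_one]
    rw [a1, q_neg h, h.qs2, mul_comm u y]
    exact (h.qs3 _ _ _).1 k1

include h in
theorem DD_mul {t : S.Q} {y1 y2 : S.G} (h1 : y1 ∈ DD S t) (h2 : y2 ∈ DD S t) :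
    y1 * y2 ∈ DD S t := by
  rw [mem_DD] at h1 h2 ⊢
  obtain ⟨x1, hx1, hy1⟩ := h1
  obtain ⟨x2, hx2, hy2⟩ := h2
  obtain ⟨z, e1, e2⟩ := exists_common h hx1 hx2
  obtain ⟨u, c, k1, k2, k3⟩ := D_dec h e1 e2 (mem_V.1 hy2)
  obtain ⟨s, w, l1, l2⟩ := D_sup h k2 (p_mul h (mem_V.1 hy1) k1) k3
  refine ⟨s, mem_X.2 ⟨w, l1⟩, mem_V.2 ?_⟩
  have : y1 * u * (u * y2) = y1 * y2 := by
    have b : y1 * u * (u * y2) = y1 * y2 * (u * u) := by
      simp only [mul_comm, mul_left_comm]
    rw [b, h.exp2, mul_one]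
  rw [this] at l2
  exact l2

include h in
theorem inv_eq (a : S.G) : a⁻¹ = a := by
  rw [inv_eq_iff_mul_eq_one]
  exact h.exp2 a

include h in
theorem DD_dvd {t : S.Q} (ht : (X S t).Nonempty) : (DD S t).card ∣ Fintype.card S.G := by
  obtain ⟨x, hx⟩ := ht
  let K : Subgroup S.G :=
    { carrier := (DD S t : Set S.G)
      one_mem' := mem_coe.2 (mem_DD.2 ⟨x, hx, one_mem_V h x⟩)
      mul_mem' := fun h1 h2 => mem_coe.2 (DD_mul h (mem_coe.1 h1) (mem_coe.1 h2))
      inv_mem' := fun {y} hy => by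
        rw [inv_eq h]
        exact hy }
  have h1 : Nat.card K ∣ Nat.card S.G := Subgroup.card_subgroup_dvd_card K
  have h2 : Nat.card K = (DD S t).card := by
    change Nat.card ((DD S t : Set S.G)) = _
    rw [Nat.card_coe_set_eq, Set.ncard_coe_finset]
  rw [h2, Nat.card_eq_fintype_card] at h1
  exact h1

include h in
theorem card_pow : ∃ n : ℕ, Fintype.card S.G = 2 ^ n := by
  have h1 : IsPGroup 2 S.G := fun g => ⟨1, by rw [pow_one, pow_two]; exact h.exp2 g⟩
  have : Fact (Nat.Prime 2) := ⟨Nat.prime_two⟩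
  obtain ⟨n, hn⟩ := IsPGroup.iff_card.1 h1
  exact ⟨n, by rw [← Nat.card_eq_fintype_card, hn]⟩

include h in
theorem V_dvd (a : S.G) : (V S a).card ∣ Fintype.card S.G := by
  have h1 : Nat.card (D h a) ∣ Nat.card S.G := Subgroup.card_subgroup_dvd_card _
  have h2 : Nat.card (D h a) = (V S a).card := by
    have : ((D h a : Subgroup S.G) : Set S.G) = (V S a : Set S.G) := by
      ext x
      rw [mem_coe, mem_V]
      exact Iff.rfl
    change Nat.card ((D h a : Subgroup S.G) : Set S.G) = _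
    rw [this, Nat.card_coe_set_eq, Set.ncard_coe_finset]
  rw [h2, Nat.card_eq_fintype_card] at h1
  exact h1

end

end Pool.Agent.Q6.EV
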