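import Mathlib

set_option autoImplicit false

/-!
# Numerical part
-/

namespace Pool.Agent.Q6.EV

theorem pow_lt_gap {m a : ℕ} (h1 : (2 : ℤ) ^ a < 2 ^ m) (h2 : (2 : ℤ) ^ m < 2 ^ (a + 1)) :
    False := by
  have e1 : a < m := (pow_lt_pow_iff_right₀ (by norm_num : (1 : ℤ) < 2)).1 h1
  have e2 : m < a + 1 := (pow_lt_pow_iff_right₀ (by norm_num : (1 : ℤ) < 2)).1 h2
  omega

/-- `2 v ≤ N ≤ v ^ 2 / 4` -/
theorem case_mid (v N c D δ : ℤ) (hv4 : 4 ≤ v) (hN2v : 2 * v ≤ N) (hN4 : 4 * N ≤ v ^ 2)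
    (hcδ : c = v ^ 2 - v + 1 - δ) (hδ0 : 0 ≤ δ)
    (hδ1 : 2 * (N - 1) * δ ≤ (v - 1) * (v - 2) ^ 2) (hD : D ≤ N * v)
    (hCS : c * (v - 1) ^ 2 ≤ (D - 1) * (v ^ 2 - c)) : False := by
  have hv8 : (8 : ℤ) ≤ v := by nlinarith
  have h1 : c * (v - 1) ^ 2 ≤ (N * v - 1) * (v - 1 + δ) := by
    have e1 : v ^ 2 - c = v - 1 + δ := by rw [hcδ]; ring
    rw [e1] at hCS
    have e2 : 0 ≤ v - 1 + δ := by linarith
    calc c * (v - 1) ^ 2 ≤ (D - 1) * (v - 1 + δ) := hCS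
      _ ≤ (N * v - 1) * (v - 1 + δ) := mul_le_mul_of_nonneg_right (by linarith) e2
  have h2 : 2 * (N - 1) * (c * (v - 1) ^ 2 - (N * v - 1) * (v - 1 + δ)) =
      2 * (N - 1) * ((v - 1) * ((v ^ 2 - v + 1) * (v - 1) - (N * v - 1))) -
        2 * (N - 1) * δ * ((v - 1) ^ 2 + N * v - 1) := by
    rw [hcδ]; ring
  have h3 : 2 * (N - 1) * (c * (v - 1) ^ 2 - (N * v - 1) * (v - 1 + δ)) ≤ 0 :=
    mul_nonpos_of_nonneg_of_nonpos (by linarith) (by linarith)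
  have hNv0 : 0 ≤ N * v := mul_nonneg (by linarith) (by linarith)
  have hpos : 0 ≤ (v - 1) ^ 2 + N * v - 1 := by
    have : 1 ≤ (v - 1) ^ 2 := by
      have : (1 : ℤ) ≤ v - 1 := by linarith
      nlinarith
    linarith
  have h4 : 2 * (N - 1) * δ * ((v - 1) ^ 2 + N * v - 1) ≤
      (v - 1) * (v - 2) ^ 2 * ((v - 1) ^ 2 + N * v - 1) :=
    mul_le_mul_of_nonneg_right hδ1 hpos
  have h5 : (v - 1) * (v * (-2 * N ^ 2 + (v ^ 2 + 2) * N - (v ^ 3 - 4 * v ^ 2 + 8 * v - 4))) =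
      2 * (N - 1) * ((v - 1) * ((v ^ 2 - v + 1) * (v - 1) - (N * v - 1))) -
        (v - 1) * (v - 2) ^ 2 * ((v - 1) ^ 2 + N * v - 1) := by ring
  have h6 : 0 < -2 * N ^ 2 + (v ^ 2 + 2) * N - (v ^ 3 - 4 * v ^ 2 + 8 * v - 4) := by
    have a1 : 0 ≤ (N - 2 * v) * (v ^ 2 - 4 * N) :=
      mul_nonneg (by linarith) (by linarith)
    have a0 : 0 ≤ v ^ 2 - 8 * v + 4 := by nlinarith
    have a2 : 0 ≤ (v ^ 2 - 8 * v + 4) * N := mul_nonneg a0 (by linarith)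
    have a3 : 2 * (-2 * N ^ 2 + (v ^ 2 + 2) * N - (v ^ 3 - 4 * v ^ 2 + 8 * v - 4)) =
        (N - 2 * v) * (v ^ 2 - 4 * N) + (v ^ 2 - 8 * v + 4) * N + 8 * (v - 1) ^ 2 := by ring
    have a4 : 0 < (v - 1) ^ 2 := pow_pos (by linarith) 2
    linarith
  have h7 : 0 < (v - 1) *
      (v * (-2 * N ^ 2 + (v ^ 2 + 2) * N - (v ^ 3 - 4 * v ^ 2 + 8 * v - 4))) :=
    mul_pos (by linarith) (mul_pos (by linarith) h6)
  linarith

/-- `N = v ^ 2 / 2` -/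
theorem case_border (v N c D δ : ℤ) (hv4 : 4 ≤ v) (hN2 : 2 * N = v ^ 2)
    (hcδ : c = v ^ 2 - v + 1 - δ) (hδ0 : 0 ≤ δ)
    (hδ1 : 2 * (N - 1) * δ ≤ (v - 1) * (v - 2) ^ 2) (hD : D ≤ N * v)
    (hint : 0 ≤ c * (v ^ 2 - c) - 3 * (c * (v - 1)) + 2 * (D - 1)) : False := by
  have h1 : (v ^ 2 - 2) * δ ≤ (v - 1) * (v - 2) ^ 2 := by
    have : 2 * (N - 1) = v ^ 2 - 2 := by linarith
    rw [this] at hδ1
    exact hδ1
  have h2 : v * (v - 2) ^ 2 - δ * (v ^ 2 + v - 1) + δ ^ 2 ≤ 0 := by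
    have e1 : v ^ 2 - c = v - 1 + δ := by rw [hcδ]; ring
    rw [e1] at hint
    have e2 : 2 * (D - 1) ≤ v ^ 3 - 2 := by
      have : 2 * (N * v) = v ^ 3 := by
        calc 2 * (N * v) = (2 * N) * v := by ring
          _ = v ^ 3 := by rw [hN2]; ring
      linarith
    have e3 : 0 ≤ c * (v - 1 + δ) - 3 * (c * (v - 1)) + (v ^ 3 - 2) := by linarith
    have e4 : c * (v - 1 + δ) - 3 * (c * (v - 1)) + (v ^ 3 - 2) =
        -(v * (v - 2) ^ 2 - δ * (v ^ 2 + v - 1) + δ ^ 2) := by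
      rw [hcδ]
      ring
    linarith
  rcases eq_or_lt_of_le hδ0 with h3 | h3
  · rw [← h3] at h2
    have : 0 < v * (v - 2) ^ 2 := mul_pos (by linarith) (pow_pos (by linarith) 2)
    linarith
  · have h4 : (1 : ℤ) ≤ δ := h3
    have h5 : 0 < v ^ 2 - 2 := by nlinarith
    have h6 : (v ^ 2 - 2) * (v * (v - 2) ^ 2 - δ * (v ^ 2 + v - 1) + δ ^ 2) ≤ 0 :=
      mul_nonpos_of_nonneg_of_nonpos h5.le h2
    have h7 : (v ^ 2 - 2) * δ * (v ^ 2 + v - 1) ≤ (v - 1) * (v - 2) ^ 2 * (v ^ 2 + v - 1) :=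
      mul_le_mul_of_nonneg_right h1 (by nlinarith)
    have h8 : (v ^ 2 - 2) * 1 ≤ (v ^ 2 - 2) * δ ^ 2 :=
      mul_le_mul_of_nonneg_left (by nlinarith) h5.le
    have h9 : (v ^ 2 - 2) * (v * (v - 2) ^ 2 - δ * (v ^ 2 + v - 1) + δ ^ 2) =
        (v ^ 2 - 2) * (v * (v - 2) ^ 2) - (v ^ 2 - 2) * δ * (v ^ 2 + v - 1) +
          (v ^ 2 - 2) * δ ^ 2 := by ring
    have h10 : (v ^ 2 - 2) * (v * (v - 2) ^ 2) - (v - 1) * (v - 2) ^ 2 * (v ^ 2 + v - 1) +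
        (v ^ 2 - 2) * 1 = 4 * v - 6 := by ring
    linarith

/-- `N ≥ v ^ 2`: the order of the value group is between `v ^ 3 / 2` and `v ^ 3` -/
theorem case_big (v N c D δ : ℤ) (hv4 : 4 ≤ v) (hNv : v ^ 2 ≤ N)
    (hcδ : c = v ^ 2 - v + 1 - δ) (hδ0 : 0 ≤ δ)
    (hδ1 : 2 * (N - 1) * δ ≤ (v - 1) * (v - 2) ^ 2)
    (hCS : c * (v - 1) ^ 2 ≤ (D - 1) * (v ^ 2 - c))
    (hup : D - 1 ≤ c * (v - 1)) : D < v ^ 3 ∧ v ^ 3 < 2 * D := by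
  constructor
  · have e1 : c * (v - 1) ≤ (v ^ 2 - v + 1) * (v - 1) :=
      mul_le_mul_of_nonneg_right (by linarith) (by linarith)
    have e2 : (v ^ 2 - v + 1) * (v - 1) = v ^ 3 - 2 * v ^ 2 + 2 * v - 1 := by ring
    nlinarith
  · have h1 : 2 * (v + 1) * δ ≤ (v - 2) ^ 2 := by
      have e1 : 2 * (v ^ 2 - 1) * δ ≤ 2 * (N - 1) * δ :=
        mul_le_mul_of_nonneg_right (by linarith) hδ0
      have e3 : (v - 1) * (2 * (v + 1) * δ) = 2 * (v ^ 2 - 1) * δ := by ring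
      have e2 : (v - 1) * (2 * (v + 1) * δ) ≤ (v - 1) * (v - 2) ^ 2 := by linarith
      exact le_of_mul_le_mul_left e2 (by linarith)
    by_contra hcon
    push Not at hcon
    have e0 : v ^ 2 - c = v - 1 + δ := by rw [hcδ]; ring
    rw [e0] at hCS
    have e1 : 2 * (c * (v - 1) ^ 2) ≤ (v ^ 3 - 2) * (v - 1 + δ) := by
      have a : 2 * (D - 1) ≤ v ^ 3 - 2 := by linarith
      have b : 2 * (D - 1) * (v - 1 + δ) ≤ (v ^ 3 - 2) * (v - 1 + δ) :=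
        mul_le_mul_of_nonneg_right a (by linarith)
      linarith
    have hpos : 0 ≤ 2 * (v - 1) ^ 2 + v ^ 3 - 2 := by
      have a : 0 ≤ (v - 1) ^ 2 := sq_nonneg _
      have b : (8 : ℤ) ≤ v ^ 3 := by
        calc (8 : ℤ) ≤ 4 ^ 3 := by norm_num
          _ ≤ v ^ 3 := pow_le_pow_left₀ (by norm_num) hv4 3
      linarith
    have e2 : 2 * (v + 1) * δ * (2 * (v - 1) ^ 2 + v ^ 3 - 2) ≤
        (v - 2) ^ 2 * (2 * (v - 1) ^ 2 + v ^ 3 - 2) :=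
      mul_le_mul_of_nonneg_right h1 hpos
    have e3 : 2 * (v + 1) * ((v - 1) * (2 * ((v ^ 2 - v + 1) * (v - 1)) - (v ^ 3 - 2))) ≤
        2 * (v + 1) * δ * (2 * (v - 1) ^ 2 + v ^ 3 - 2) := by
      have a : (v - 1) * (2 * ((v ^ 2 - v + 1) * (v - 1)) - (v ^ 3 - 2)) ≤
          δ * (2 * (v - 1) ^ 2 + v ^ 3 - 2) := by
        have a1 : 2 * (c * (v - 1) ^ 2) - (v ^ 3 - 2) * (v - 1 + δ) =
            (v - 1) * (2 * ((v ^ 2 - v + 1) * (v - 1)) - (v ^ 3 - 2)) -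
            δ * (2 * (v - 1) ^ 2 + v ^ 3 - 2) := by
          rw [hcδ]
          ring
        linarith
      have b : 2 * (v + 1) * ((v - 1) * (2 * ((v ^ 2 - v + 1) * (v - 1)) - (v ^ 3 - 2))) ≤
          2 * (v + 1) * (δ * (2 * (v - 1) ^ 2 + v ^ 3 - 2)) :=
        mul_le_mul_of_nonneg_left a (by linarith)
      linarith
    have e4 : 2 * (v + 1) * ((v - 1) * (2 * ((v ^ 2 - v + 1) * (v - 1)) - (v ^ 3 - 2))) -
        (v - 2) ^ 2 * (2 * (v - 1) ^ 2 + v ^ 3 - 2) = v * (v - 2) ^ 2 * (v ^ 2 - 2 * v + 2) := by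
      ring
    have e5 : 0 < v * (v - 2) ^ 2 * (v ^ 2 - 2 * v + 2) :=
      mul_pos (mul_pos (by linarith) (pow_pos (by linarith) 2)) (by nlinarith)
    linarith

/-- the numerical contradiction -/
theorem numeric (k l m : ℕ) (v N c D : ℤ) (hv : v = 2 ^ k) (hN : N = 2 ^ l) (hDm : D = 2 ^ m)
    (hk : 2 ≤ k) (hlk : k + 1 ≤ l)
    (hc : 2 * (N - 1) + v * (2 * (N * v) - 6 - v ^ 2 + 3 * v) - 2 * (N * v - 2) ≤ 2 * (N - 1) * c)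
    (hc2 : c ≤ v ^ 2 - v + 1) (hD : D ≤ N * v)
    (hCS : c * (v - 1) ^ 2 ≤ (D - 1) * (v ^ 2 - c))
    (hup : D - 1 ≤ c * (v - 1))
    (hint : 0 ≤ c * (v ^ 2 - c) - 3 * (c * (v - 1)) + 2 * (D - 1)) : False := by
  have hv4 : (4 : ℤ) ≤ v := by
    rw [hv]
    calc (4 : ℤ) = 2 ^ 2 := by norm_num
      _ ≤ 2 ^ k := pow_le_pow_right₀ (by norm_num) hk
  have hN2v : 2 * v ≤ N := by
    rw [hv, hN]
    calc (2 : ℤ) * 2 ^ k = 2 ^ (k + 1) := by ring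
      _ ≤ 2 ^ l := pow_le_pow_right₀ (by norm_num) hlk
  obtain ⟨δ, hδ⟩ : ∃ δ, δ = v ^ 2 - v + 1 - c := ⟨_, rfl⟩
  have hcδ : c = v ^ 2 - v + 1 - δ := by rw [hδ]; ring
  have hδ0 : 0 ≤ δ := by rw [hδ]; linarith
  have hδ1 : 2 * (N - 1) * δ ≤ (v - 1) * (v - 2) ^ 2 := by
    have e1 : 2 * (N - 1) * c = 2 * (N - 1) * (v ^ 2 - v + 1) - 2 * (N - 1) * δ := by
      rw [hcδ]; ring
    have e2 : 2 * (N - 1) * (v ^ 2 - v + 1) -
        (2 * (N - 1) + v * (2 * (N * v) - 6 - v ^ 2 + 3 * v) - 2 * (N * v - 2)) =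
        (v - 1) * (v - 2) ^ 2 := by ring
    linarith
  rcases lt_trichotomy l (2 * k - 1) with hl | hl | hl
  · refine case_mid v N c D δ hv4 hN2v ?_ hcδ hδ0 hδ1 hD hCS
    rw [hv, hN]
    calc (4 : ℤ) * 2 ^ l = 2 ^ (l + 2) := by ring
      _ ≤ 2 ^ (2 * k) := pow_le_pow_right₀ (by norm_num) (by omega)
      _ = (2 ^ k) ^ 2 := by rw [mul_comm, pow_mul]
  · refine case_border v N c D δ hv4 ?_ hcδ hδ0 hδ1 hD hint
    rw [hv, hN, hl]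
    calc (2 : ℤ) * 2 ^ (2 * k - 1) = 2 ^ (2 * k - 1 + 1) := by ring
      _ = 2 ^ (k * 2) := by congr 1; omega
      _ = (2 ^ k) ^ 2 := by rw [pow_mul]
  · have hNv : v ^ 2 ≤ N := by
      rw [hv, hN]
      calc ((2 : ℤ) ^ k) ^ 2 = 2 ^ (k * 2) := by rw [pow_mul]
        _ ≤ 2 ^ l := pow_le_pow_right₀ (by norm_num) (by omega)
    obtain ⟨hD1, hD2⟩ := case_big v N c D δ hv4 hNv hcδ hδ0 hδ1 hCS hup
    have hv3 : v ^ 3 = 2 ^ (3 * k - 1 + 1) := by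
      rw [hv, ← pow_mul]
      congr 1
      omega
    have f1 : (2 : ℤ) ^ (3 * k - 1) < 2 ^ m := by
      rw [← hDm]
      have : v ^ 3 = 2 * 2 ^ (3 * k - 1) := by rw [hv3, pow_succ]; ring
      linarith
    have f2 : (2 : ℤ) ^ m < 2 ^ (3 * k - 1 + 1) := by
      rw [← hDm, ← hv3]
      exact hD1
    exact pow_lt_gap f1 f2

end Pool.Agent.Q6.EV
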