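import Mathlib
import Pool.Agent.Q6.EV.Count
import Pool.Agent.Q6.EV.Sub
import Pool.Agent.Q6.EV.Num

set_option autoImplicit false
set_option linter.unusedSectionVars false

/-!
# Value groups of equal order
-/

namespace Pool.Agent.Q6.EV

open Finset
open Pool.Agent.H315R3.ETC Pool.Agent.TH673.VG

open Classical

noncomputable section

variable {S : QData} (h : IsQuat S) [Fintype S.G]

include h in
theorem card_Qs (a : S.G) : (Qs S a).card * (V S a).card = Fintype.card S.G := by
  have h1 := card_QQ h a a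
  rw [inter_self, inter_self, h.exp2, V_one h, card_univ] at h1
  exact h1

include h in
theorem zero_mem_Qs (a : S.G) : S.zero ∈ Qs S a := mem_Qs.2 ⟨1, q_one h a⟩

include h in
theorem Qs_one : Qs S (1 : S.G) = {S.zero} := by
  ext t
  rw [mem_Qs, mem_singleton]
  constructor
  · rintro ⟨x, hx⟩
    rw [← hx, q_one' h]
  · rintro rfl
    exact ⟨1, q_one' h 1⟩

variable {v : ℕ} (hv : ∀ a : S.G, a ≠ 1 → (V S a).card = v)

include h hv in
theorem v_pos {a : S.G} (ha : a ≠ 1) : 0 < v := by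
  rw [← hv a ha]
  exact card_pos.2 ⟨1, one_mem_V h a⟩

include h hv in
/-- the sum of the orders of the intersections -/
theorem sum_B {a : S.G} (ha : a ≠ 1) :
    ∑ b ∈ (univ.erase 1).erase a, (V S a ∩ V S b).card + 2 * v =
      Fintype.card S.G + (v - 1) * v := by
  have h1 := sum_r h a
  rw [← add_sum_erase univ _ (mem_univ (1 : S.G)),
    ← add_sum_erase (univ.erase 1) _ (mem_erase.2 ⟨ha, mem_univ a⟩), V_one h, inter_univ,
    inter_self, hv a ha] at h1
  have h2 : ∑ x ∈ V S a, (V S x).card = Fintype.card S.G + (v - 1) * v := by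
    rw [← add_sum_erase (V S a) _ (one_mem_V h a), V_one h, card_univ,
      sum_const_nat (m := v) (fun x hx => hv x (mem_erase.1 hx).1),
      card_erase_of_mem (one_mem_V h a), hv a ha]
  omega

/-- slots with the same quaternions -/
def EE (S : QData) [Fintype S.G] (a : S.G) : Finset S.G :=
  univ.filter fun b => b = 1 ∨ Qs S b = Qs S a

theorem mem_EE {a b : S.G} : b ∈ EE S a ↔ b = 1 ∨ Qs S b = Qs S a := by simp [EE]

include h hv in
theorem EE_pair {a : S.G} (ha : a ≠ 1) {b b' : S.G} (hb : b ∈ EE S a) (hb' : b' ∈ EE S a)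
    (hb1 : b ≠ 1) (hb1' : b' ≠ 1) (hne : b ≠ b') :
    (Qs S a).card * (V S b ∩ V S b').card = v := by
  have h1 := (mem_EE.1 hb).resolve_left hb1
  have h2 := (mem_EE.1 hb').resolve_left hb1'
  have h3 := card_QQ h b b'
  rw [h1, h2, inter_self, hv (b * b') (fun e => hne (eq_of_mul h _ _ e))] at h3
  exact h3

include h hv in
theorem EE_mul {a : S.G} (ha : a ≠ 1) {b b' : S.G} (hb : b ∈ EE S a) (hb' : b' ∈ EE S a) :
    b * b' ∈ EE S a := by
  by_cases hb1 : b = 1
  · rwa [hb1, one_mul]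
  by_cases hb1' : b' = 1
  · rwa [hb1', mul_one]
  by_cases hne : b = b'
  · rw [hne, h.exp2]
    exact mem_EE.2 (Or.inl rfl)
  have h0 := v_pos h hv ha
  have h1 := EE_pair h hv ha hb hb' hb1 hb1' hne
  have hbb : b * b' ≠ 1 := fun e => hne (eq_of_mul h _ _ e)
  have h2 : V S b ∩ V S (b * b') = V S b ∩ V S b' := by
    ext x
    rw [mem_inter, mem_inter]
    constructor
    · rintro ⟨e1, e2⟩
      refine ⟨e1, ?_⟩
      have := D_inf h b (b * b') (x := x) (mem_V.1 e1) (mem_V.1 e2)
      rw [← mul_assoc, h.exp2, one_mul] at this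
      exact mem_V.2 this
    · rintro ⟨e1, e2⟩
      exact ⟨e1, mem_V.2 (D_inf h b b' (x := x) (mem_V.1 e1) (mem_V.1 e2))⟩
  have h3 := card_QQ h b (b * b')
  rw [h2, ← mul_assoc, h.exp2, one_mul, hv b' hb1'] at h3
  have h4 : (Qs S b ∩ Qs S (b * b')).card = (Qs S a).card := by
    have : 0 < (V S b ∩ V S b').card := card_pos.2 ⟨1, mem_inter.2 ⟨one_mem_V h b, one_mem_V h b'⟩⟩
    exact Nat.eq_of_mul_eq_mul_right this (h3.trans h1.symm)
  have hQb := (mem_EE.1 hb).resolve_left hb1
  have hcard : (Qs S (b * b')).card = (Qs S a).card := by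
    have e1 := card_Qs h (b * b')
    have e2 := card_Qs h a
    rw [hv _ hbb] at e1
    rw [hv _ ha] at e2
    exact Nat.eq_of_mul_eq_mul_right h0 (e1.trans e2.symm)
  refine mem_EE.2 (Or.inr ?_)
  rw [hQb] at h4
  have e3 : Qs S a ∩ Qs S (b * b') = Qs S a := eq_of_subset_of_card_le inter_subset_left h4.ge
  have e4 : Qs S a ∩ Qs S (b * b') = Qs S (b * b') :=
    eq_of_subset_of_card_le inter_subset_right (by rw [h4, hcard])
  exact e4.symm.trans e3

include h hv in
theorem EE_dvd {a : S.G} (ha : a ≠ 1) : (EE S a).card ∣ Fintype.card S.G := by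
  let K : Subgroup S.G :=
    { carrier := (EE S a : Set S.G)
      one_mem' := mem_coe.2 (mem_EE.2 (Or.inl rfl))
      mul_mem' := fun h1 h2 => mem_coe.2 (EE_mul h hv ha (mem_coe.1 h1) (mem_coe.1 h2))
      inv_mem' := fun {y} hy => by
        rw [inv_eq h]
        exact hy }
  have h1 : Nat.card K ∣ Nat.card S.G := Subgroup.card_subgroup_dvd_card K
  have h2 : Nat.card K = (EE S a).card := by
    change Nat.card ((EE S a : Set S.G)) = _
    rw [Nat.card_coe_set_eq, Set.ncard_coe_finset]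
  rw [h2, Nat.card_eq_fintype_card] at h1
  exact h1

include h hv in
/-- orders which are not small -/
theorem large {a : S.G} (ha : a ≠ 1) {k l : ℕ} (hk : v = 2 ^ k) (hl : (Qs S a).card = 2 ^ l)
    (hl2 : 2 ≤ l) (hk2 : 2 ≤ k) : k + 1 ≤ l := by
  set N := (Qs S a).card with hN
  have hNv : N * v = Fintype.card S.G := by
    rw [← card_Qs h a, hv a ha]
  have hN4 : 4 ≤ N := by
    rw [hl]
    calc 4 = 2 ^ 2 := by norm_num
      _ ≤ 2 ^ l := Nat.pow_le_pow_right (by norm_num) hl2
  have hv4 : 4 ≤ v := by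
    rw [hk]
    calc 4 = 2 ^ 2 := by norm_num
      _ ≤ 2 ^ k := Nat.pow_le_pow_right (by norm_num) hk2
  have h0 : 0 < v := by omega
  set B : Finset S.G := (univ.erase 1).erase a with hB
  have hBm : ∀ b, b ∈ B ↔ b ≠ a ∧ b ≠ 1 := fun b => by
    rw [hB, mem_erase, mem_erase]
    exact ⟨fun h => ⟨h.1, h.2.1⟩, fun h => ⟨h.1, h.2, mem_univ _⟩⟩
  set E := EE S a with hE
  have haE : a ∈ E := mem_EE.2 (Or.inr rfl)
  have h1E : (1 : S.G) ∈ E := mem_EE.2 (Or.inl rfl)
  have hBE : (B.filter (fun b => b ∈ E)).card + 2 = E.card := by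
    have : B.filter (fun b => b ∈ E) = (E.erase 1).erase a := by
      ext b
      rw [mem_filter, hBm, mem_erase, mem_erase]
      tauto
    have e1 : 0 < (E.erase 1).card := card_pos.2 ⟨a, mem_erase.2 ⟨ha, haE⟩⟩
    rw [card_erase_of_mem h1E] at e1
    rw [this, card_erase_of_mem (mem_erase.2 ⟨ha, haE⟩), card_erase_of_mem h1E]
    omega
  have hBN : (B.filter (fun b => ¬ b ∈ E)).card + E.card = Fintype.card S.G := by
    have : B.filter (fun b => ¬ b ∈ E) = univ \ E := by
      ext b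
      rw [mem_filter, hBm, mem_sdiff]
      constructor
      · rintro ⟨-, e⟩
        exact ⟨mem_univ _, e⟩
      · rintro ⟨-, e⟩
        exact ⟨⟨fun e' => e (e' ▸ haE), fun e' => e (e' ▸ h1E)⟩, e⟩
    rw [this, card_sdiff_of_subset (subset_univ _), card_univ]
    have := card_le_card (subset_univ E)
    rw [card_univ] at this
    omega
  have hr1 : ∀ b ∈ B.filter (fun b => b ∈ E), N * (V S a ∩ V S b).card = v := by
    intro b hb
    rw [mem_filter, hBm] at hb
    exact EE_pair h hv ha haE hb.2 ha hb.1.2 (Ne.symm hb.1.1)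
  have hr2 : ∀ b ∈ B.filter (fun b => ¬ b ∈ E), 2 * v ≤ N * (V S a ∩ V S b).card := by
    intro b hb
    rw [mem_filter, hBm] at hb
    have e1 := card_QQ h a b
    rw [hv (a * b) (fun e => hb.1.1 (eq_of_mul h _ _ e).symm)] at e1
    have e2 : (Qs S a ∩ Qs S b).card < N := by
      refine lt_of_le_of_ne (card_le_card inter_subset_left) fun e => hb.2 (mem_EE.2 (Or.inr ?_))
      have hcard : (Qs S b).card = (Qs S a).card := by
        have e3 := card_Qs h b
        rw [hv _ hb.1.2, ← hNv] at e3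
        exact Nat.eq_of_mul_eq_mul_right h0 e3
      have e3 : Qs S a ∩ Qs S b = Qs S a := eq_of_subset_of_card_le inter_subset_left e.ge
      have e4 : Qs S a ∩ Qs S b = Qs S b :=
        eq_of_subset_of_card_le inter_subset_right (by rw [e, hcard])
      exact e4.symm.trans e3
    have e3 : (Qs S a ∩ Qs S b).card ∣ 2 ^ k := ⟨_, by rw [e1, hk]⟩
    obtain ⟨i, -, hi⟩ := (Nat.dvd_prime_pow Nat.prime_two).1 e3
    have e4 : i < l := by
      rw [hi, hl] at e2
      exact (Nat.pow_lt_pow_iff_right (by norm_num)).1 e2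
    have e5 : 2 * (Qs S a ∩ Qs S b).card ≤ N := by
      rw [hi, hl]
      calc 2 * 2 ^ i = 2 ^ (i + 1) := by rw [pow_succ]; ring
        _ ≤ 2 ^ l := Nat.pow_le_pow_right (by norm_num) e4
    calc 2 * v = 2 * (Qs S a ∩ Qs S b).card * (V S a ∩ V S b).card := by rw [mul_assoc, e1]
      _ ≤ N * (V S a ∩ V S b).card := Nat.mul_le_mul_right _ e5
  have hsum := sum_B h hv ha
  rw [← hB] at hsum
  have hsum2 : N * ∑ b ∈ B, (V S a ∩ V S b).card =
      ∑ b ∈ B.filter (fun b => b ∈ E), N * (V S a ∩ V S b).card +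
      ∑ b ∈ B.filter (fun b => ¬ b ∈ E), N * (V S a ∩ V S b).card := by
    rw [mul_sum, sum_filter_add_sum_filter_not]
  have hs1 : ∑ b ∈ B.filter (fun b => b ∈ E), N * (V S a ∩ V S b).card =
      (B.filter (fun b => b ∈ E)).card * v := sum_const_nat hr1
  have hs2 : (B.filter (fun b => ¬ b ∈ E)).card * (2 * v) ≤
      ∑ b ∈ B.filter (fun b => ¬ b ∈ E), N * (V S a ∩ V S b).card := by
    rw [← smul_eq_mul, ← sum_const]
    exact sum_le_sum hr2
  have hEdvd := EE_dvd h hv ha
  rw [← hE] at hEdvd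
  -- everything over the integers
  obtain ⟨x, hx⟩ : ∃ x, x = ∑ b ∈ B, (V S a ∩ V S b).card := ⟨_, rfl⟩
  obtain ⟨e, he⟩ : ∃ e, e = E.card := ⟨_, rfl⟩
  obtain ⟨p, hp⟩ : ∃ p, p = (B.filter (fun b => b ∈ E)).card := ⟨_, rfl⟩
  obtain ⟨p', hp'⟩ : ∃ p', p' = (B.filter (fun b => ¬ b ∈ E)).card := ⟨_, rfl⟩
  rw [← hx] at hsum hsum2
  rw [← hp, ← he] at hBE
  rw [← hp', ← he, ← hNv] at hBN
  rw [hs1, ← hp] at hsum2
  rw [← hp'] at hs2
  rw [← hNv] at hsum
  obtain ⟨v', hv'⟩ : ∃ v', v = v' + 1 := ⟨v - 1, by omega⟩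
  have hvv : (v - 1) * v + v = v * v := by
    rw [hv', Nat.add_sub_cancel]
    ring
  have hxz : (x : ℤ) + 3 * v = N * v + v * v := by
    have : x + 2 * v + v = N * v + ((v - 1) * v + v) := by omega
    rw [hvv] at this
    have : ((x + 2 * v + v : ℕ) : ℤ) = ((N * v + v * v : ℕ) : ℤ) := by exact_mod_cast this
    push_cast at this
    linarith
  have hp2 : (p : ℤ) = e - 2 := by omega
  have hp3 : (p' : ℤ) = N * v - e := by
    have : ((p' + e : ℕ) : ℤ) = ((N * v : ℕ) : ℤ) := by exact_mod_cast hBN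
    push_cast at this
    linarith
  have hine : (p : ℤ) * v + p' * (2 * v) ≤ N * x := by
    have : p * v + p' * (2 * v) ≤ N * x := by
      rw [hsum2]
      omega
    exact_mod_cast this
  have hvz : (0 : ℤ) < v := by exact_mod_cast h0
  have hNz : (4 : ℤ) ≤ N := by exact_mod_cast hN4
  have hvz4 : (4 : ℤ) ≤ v := by exact_mod_cast hv4
  have hx2 : (x : ℤ) = v * (N + v - 3) := by linarith
  have hke : (N : ℤ) * v + 3 * N - 2 - N * N ≤ e := by
    rw [hp2, hp3, hx2] at hine
    have e1 : (v : ℤ) * (N * v + 3 * N - 2 - N * N) - v * e =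
        ((e : ℤ) - 2) * v + (N * v - e) * (2 * v) - N * (v * (N + v - 3)) := by ring
    have e2 : (v : ℤ) * (N * v + 3 * N - 2 - N * N) ≤ v * e := by linarith
    exact le_of_mul_le_mul_left e2 hvz
  by_contra hcon
  push Not at hcon
  rcases (by omega : l = k ∨ l + 1 ≤ k) with hlk | hlk
  · -- `v = N`
    have hNv' : N = v := by rw [hl, hk, hlk]
    have hdis : ∀ b ∈ E.erase 1, ∀ b' ∈ E.erase 1, b ≠ b' →
        Disjoint ((V S b).erase 1) ((V S b').erase 1) := by
      intro b hb b' hb' hne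
      rw [mem_erase] at hb hb'
      have e1 := EE_pair h hv ha hb.2 hb'.2 hb.1 hb'.1 hne
      rw [← hN, hNv'] at e1
      have e2 : (V S b ∩ V S b').card = 1 := by
        have : v * (V S b ∩ V S b').card = v * 1 := by rw [e1, mul_one]
        exact Nat.eq_of_mul_eq_mul_left h0 this
      rw [Finset.disjoint_left]
      intro y hy hy'
      rw [mem_erase] at hy hy'
      obtain ⟨w, hw⟩ := card_eq_one.1 e2
      have m1 : y ∈ V S b ∩ V S b' := mem_inter.2 ⟨hy.2, hy'.2⟩
      have m2 : (1 : S.G) ∈ V S b ∩ V S b' := mem_inter.2 ⟨one_mem_V h b, one_mem_V h b'⟩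
      rw [hw, mem_singleton] at m1 m2
      exact hy.1 (m1.trans m2.symm)
    have hun := card_biUnion hdis
    have hsub : (E.erase 1).biUnion (fun b => (V S b).erase 1) ⊆ univ.erase (1 : S.G) := by
      intro y hy
      obtain ⟨b, -, hy⟩ := mem_biUnion.1 hy
      exact mem_erase.2 ⟨(mem_erase.1 hy).1, mem_univ _⟩
    have hle := card_le_card hsub
    rw [hun, sum_const_nat (m := v - 1) (fun b hb => by
      rw [card_erase_of_mem (one_mem_V h b), hv b (mem_erase.1 hb).1]),
      card_erase_of_mem h1E, card_erase_of_mem (mem_univ (1 : S.G)), card_univ, ← he, ← hNv,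
      hNv'] at hle
    have e1 : 1 ≤ e := by rw [he]; exact card_pos.2 ⟨1, h1E⟩
    have hle2 : ((e : ℤ) - 1) * (v - 1) ≤ v * v - 1 := by
      have e2 : 1 ≤ v * v := Nat.mul_pos h0 h0
      have : (((e - 1) * (v - 1) : ℕ) : ℤ) ≤ ((v * v - 1 : ℕ) : ℤ) := by exact_mod_cast hle
      push_cast [Nat.cast_sub e1, Nat.cast_sub h0, Nat.cast_sub e2] at this
      linarith
    rw [hNv'] at hke
    have f1 : (3 * (v : ℤ) - 3) * (v - 1) ≤ ((e : ℤ) - 1) * (v - 1) :=
      mul_le_mul_of_nonneg_right (by linarith) (by linarith)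
    have f2 : 0 < ((v : ℤ) - 1) * (v - 2) := mul_pos (by linarith) (by linarith)
    have f3 : (3 * (v : ℤ) - 3) * (v - 1) - (v * v - 1) = 2 * (((v : ℤ) - 1) * (v - 2)) := by ring
    linarith
  · -- `v ≥ 2 N`
    have hNv2 : 2 * N ≤ v := by
      rw [hl, hk]
      calc 2 * 2 ^ l = 2 ^ (l + 1) := by rw [pow_succ]; ring
        _ ≤ 2 ^ k := Nat.pow_le_pow_right (by norm_num) hlk
    have hNv2z : 2 * (N : ℤ) ≤ v := by exact_mod_cast hNv2
    have hhalf : N * v < 2 * e := by
      have e1 : (N : ℤ) * (2 * N) ≤ N * v := mul_le_mul_of_nonneg_left hNv2z (by linarith)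
      have : (N : ℤ) * v < 2 * e := by linarith
      exact_mod_cast this
    have heq : e = N * v := by
      rw [← he, ← hNv] at hEdvd
      obtain ⟨w, hw⟩ := hEdvd
      have : w < 2 := by
        by_contra hcw
        push Not at hcw
        have : e * 2 ≤ e * w := Nat.mul_le_mul_left _ hcw
        omega
      have hw0 : w ≠ 0 := by
        rintro rfl
        have : 0 < N * v := Nat.mul_pos (by omega) h0
        omega
      have : w = 1 := by omega
      rw [this, mul_one] at hw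
      exact hw.symm
    have hp0 : p' = 0 := by omega
    have hfin : (N : ℤ) * x = p * v := by
      have hz : ∑ b ∈ B.filter (fun b => ¬ b ∈ E), N * (V S a ∩ V S b).card = 0 := by
        rw [card_eq_zero.1 (hp'.symm.trans hp0), sum_empty]
      rw [hz, add_zero] at hsum2
      exact_mod_cast hsum2
    rw [hx2, hp2, heq] at hfin
    push_cast at hfin
    have h6 : (v : ℤ) * ((N - 1) * (N - 2)) = 0 := by
      have e1 : (v : ℤ) * ((N - 1) * (N - 2)) =
          N * (v * (N + v - 3)) - ((N : ℤ) * v - 2) * v := by ring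
      linarith
    have h7 : 0 < (v : ℤ) * (((N : ℤ) - 1) * (N - 2)) :=
      mul_pos hvz (mul_pos (by linarith) (by linarith))
    linarith

end

end Pool.Agent.Q6.EV
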