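import Mathlib
import Pool.Agent.Q6.EV.Main

set_option autoImplicit false
set_option linter.unusedSectionVars false

/-!
# Value groups of equal order, continued
-/

namespace Pool.Agent.Q6.EV

open Finset
open Pool.Agent.H315R3.ETC Pool.Agent.TH673.VG

open Classical

noncomputable section

variable {S : QData} (h : IsQuat S) [Fintype S.G]
variable {v : ℕ} (hv : ∀ a : S.G, a ≠ 1 → (V S a).card = v)

include h hv in
/-- a quaternion with many slots -/
theorem exists_t {a : S.G} (ha : a ≠ 1) {N : ℕ} (hN : N = (Qs S a).card) (hN2 : 2 ≤ N) :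
    ∃ t, t ≠ S.zero ∧ a ∈ X S t ∧
      2 * ((N : ℤ) - 1) + v * (2 * ((N : ℤ) * v) - 6 - (v : ℤ) ^ 2 + 3 * v) -
        2 * ((N : ℤ) * v - 2) ≤ 2 * ((N : ℤ) - 1) * ((X S t).card : ℤ) := by
  have h0 := v_pos h hv ha
  have hNv : N * v = Fintype.card S.G := by
    rw [hN, ← card_Qs h a, hv a ha]
  set T := (Qs S a).erase S.zero with hT
  have hTc : T.card + 1 = N := by
    rw [hT, card_erase_of_mem (zero_mem_Qs h a), ← hN]
    omega
  set B : Finset S.G := (univ.erase 1).erase a with hB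
  have hBm : ∀ b, b ∈ B ↔ b ≠ a ∧ b ≠ 1 := fun b => by
    rw [hB, mem_erase, mem_erase]
    exact ⟨fun h => ⟨h.1, h.2.1⟩, fun h => ⟨h.1, h.2, mem_univ _⟩⟩
  have hBc : B.card + 2 = N * v := by
    rw [hNv, hB, card_erase_of_mem (mem_erase.2 ⟨ha, mem_univ a⟩),
      card_erase_of_mem (mem_univ (1 : S.G)), card_univ]
    have : 2 ≤ Fintype.card S.G := by
      rw [← hNv]
      nlinarith
    omega
  have hf : ∀ b, (T.filter (fun t => b ∈ X S t)).card + 1 = (Qs S a ∩ Qs S b).card := by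
    intro b
    have : T.filter (fun t => b ∈ X S t) = (Qs S a ∩ Qs S b).erase S.zero := by
      ext t
      rw [mem_filter, hT, mem_erase, mem_erase, mem_inter, mem_X, mem_Qs (a := b)]
      tauto
    have h1 : S.zero ∈ Qs S a ∩ Qs S b := mem_inter.2 ⟨zero_mem_Qs h a, zero_mem_Qs h b⟩
    have h2 : 0 < (Qs S a ∩ Qs S b).card := card_pos.2 ⟨_, h1⟩
    rw [this, card_erase_of_mem h1]
    omega
  have hsum : ∑ t ∈ T, (X S t).card = ∑ b, (T.filter (fun t => b ∈ X S t)).card := by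
    rw [← double T univ (fun t b => b ∈ X S t)]
    refine sum_congr rfl fun t _ => ?_
    congr 1
    ext b
    simp
  have hsplit : ∑ b, (T.filter (fun t => b ∈ X S t)).card =
      (N - 1) + ∑ b ∈ B, (T.filter (fun t => b ∈ X S t)).card := by
    rw [← add_sum_erase univ _ (mem_univ (1 : S.G)),
      ← add_sum_erase (univ.erase 1) _ (mem_erase.2 ⟨ha, mem_univ a⟩)]
    have e1 : (T.filter (fun t => (1 : S.G) ∈ X S t)).card = 0 := by
      have e2 := hf 1
      have e3 : Qs S a ∩ Qs S (1 : S.G) = {S.zero} := by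
        rw [Qs_one h]
        ext t
        rw [mem_inter, mem_singleton]
        exact ⟨fun e => e.2, fun e => ⟨e ▸ zero_mem_Qs h a, e⟩⟩
      rw [e3, card_singleton] at e2
      omega
    have e2 : (T.filter (fun t => a ∈ X S t)).card = N - 1 := by
      have e3 := hf a
      rw [inter_self, ← hN] at e3
      omega
    rw [e1, e2, zero_add]
  have hkey : ∀ b ∈ B, (3 * (v : ℤ) - 2) - v * ((V S a ∩ V S b).card : ℤ) ≤
      2 * ((T.filter (fun t => b ∈ X S t)).card : ℤ) := by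
    intro b hb
    rw [hBm] at hb
    have e1 := card_QQ h a b
    rw [hv (a * b) (fun e => hb.1 (eq_of_mul h _ _ e).symm), ← hf b] at e1
    have e2 : 0 < (V S a ∩ V S b).card :=
      card_pos.2 ⟨1, mem_inter.2 ⟨one_mem_V h a, one_mem_V h b⟩⟩
    obtain ⟨f, hf'⟩ : ∃ f : ℕ, f = (T.filter (fun t => b ∈ X S t)).card := ⟨_, rfl⟩
    obtain ⟨r, hr'⟩ : ∃ r : ℕ, r = (V S a ∩ V S b).card := ⟨_, rfl⟩
    rw [← hf', ← hr'] at e1
    rw [← hr'] at e2
    rw [← hf', ← hr']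
    have e3 : ((f : ℤ) + 1) * r = v := by exact_mod_cast e1
    have e4 : 0 ≤ ((r : ℤ) - 1) * (r - 2) := by
      rcases (by omega : r = 1 ∨ 2 ≤ r) with e5 | e5
      · rw [e5]
        norm_num
      · have e6 : (2 : ℤ) ≤ r := by exact_mod_cast e5
        exact mul_nonneg (by linarith) (by linarith)
    have e5 : 0 ≤ ((f : ℤ) + 1) * (((r : ℤ) - 1) * (r - 2)) := mul_nonneg (by positivity) e4
    have e6 : ((f : ℤ) + 1) * (((r : ℤ) - 1) * (r - 2)) = 2 * (f + 1) - (3 - r) * v := by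
      rw [← e3]
      ring
    linarith
  have hBs := sum_B h hv ha
  rw [← hB, ← hNv] at hBs
  have hvv : (v - 1) * v + v = v * v := by
    obtain ⟨v', hv'⟩ : ∃ v', v = v' + 1 := ⟨v - 1, by omega⟩
    rw [hv', Nat.add_sub_cancel]
    ring
  have hBz : (∑ b ∈ B, ((V S a ∩ V S b).card : ℤ)) + 3 * v = N * v + v * v := by
    have : ∑ b ∈ B, (V S a ∩ V S b).card + 2 * v + v = N * v + ((v - 1) * v + v) := by omega
    rw [hvv] at this
    have : ((∑ b ∈ B, (V S a ∩ V S b).card + 2 * v + v : ℕ) : ℤ) = ((N * v + v * v : ℕ) : ℤ) := by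
      exact_mod_cast this
    push_cast at this
    linarith
  have hmain : 2 * ((N : ℤ) - 1) + ((3 * (v : ℤ) - 2) * B.card -
      v * ∑ b ∈ B, ((V S a ∩ V S b).card : ℤ)) ≤ 2 * ∑ t ∈ T, ((X S t).card : ℤ) := by
    have e1 : ∑ t ∈ T, ((X S t).card : ℤ) =
        ((N : ℤ) - 1) + ∑ b ∈ B, ((T.filter (fun t => b ∈ X S t)).card : ℤ) := by
      have : ((∑ t ∈ T, (X S t).card : ℕ) : ℤ) =
          ((N - 1 + ∑ b ∈ B, (T.filter (fun t => b ∈ X S t)).card : ℕ) : ℤ) := by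
        rw [hsum, hsplit]
      push_cast [Nat.cast_sub (show 1 ≤ N by omega)] at this
      exact this
    have e2 : ∑ b ∈ B, ((3 * (v : ℤ) - 2) - v * ((V S a ∩ V S b).card : ℤ)) ≤
        ∑ b ∈ B, 2 * ((T.filter (fun t => b ∈ X S t)).card : ℤ) := sum_le_sum hkey
    rw [sum_sub_distrib, sum_const, nsmul_eq_mul, ← mul_sum, ← mul_sum] at e2
    rw [e1]
    linarith
  have hBcz : (B.card : ℤ) = N * v - 2 := by
    have : ((B.card + 2 : ℕ) : ℤ) = ((N * v : ℕ) : ℤ) := by exact_mod_cast hBc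
    push_cast at this
    linarith
  have hxz : (∑ b ∈ B, ((V S a ∩ V S b).card : ℤ)) = N * v + v * v - 3 * v := by linarith
  rw [hBcz, hxz] at hmain
  by_contra hcon
  push Not at hcon
  have hall : ∀ t ∈ T, 2 * ((N : ℤ) - 1) * ((X S t).card : ℤ) <
      2 * ((N : ℤ) - 1) + v * (2 * ((N : ℤ) * v) - 6 - (v : ℤ) ^ 2 + 3 * v) -
        2 * ((N : ℤ) * v - 2) := by
    intro t ht
    rw [hT, mem_erase, mem_Qs] at ht
    exact hcon t ht.1 (mem_X.2 ht.2)
  have hTne : T.Nonempty := card_pos.1 (by omega)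
  have hlt := sum_lt_sum_of_nonempty hTne hall
  rw [← mul_sum, sum_const, nsmul_eq_mul] at hlt
  have hTz : (T.card : ℤ) = N - 1 := by
    have : ((T.card + 1 : ℕ) : ℤ) = (N : ℤ) := by exact_mod_cast hTc
    push_cast at this
    linarith
  rw [hTz] at hlt
  have hNpos : (0 : ℤ) < (N : ℤ) - 1 := by
    have : (2 : ℤ) ≤ N := by exact_mod_cast hN2
    linarith
  have hfin : ((N : ℤ) - 1) * (2 * ∑ t ∈ T, ((X S t).card : ℤ)) <
      ((N : ℤ) - 1) * (2 * ((N : ℤ) - 1) + v * (2 * ((N : ℤ) * v) - 6 - (v : ℤ) ^ 2 + 3 * v) -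
        2 * ((N : ℤ) * v - 2)) := by
    linarith
  have hfin2 := lt_of_mul_lt_mul_left hfin hNpos.le
  nlinarith

include h hv in
/-- the relations between the number of slots and the value group of a quaternion -/
theorem t_data {t : S.Q} (ht : t ≠ S.zero) {a : S.G} (ha : a ∈ X S t) :
    ((X S t).card : ℤ) ≤ (v : ℤ) ^ 2 - v + 1 ∧ 1 ≤ ((X S t).card : ℤ) ∧
    ((X S t).card : ℤ) * ((v : ℤ) - 1) ^ 2 ≤
      (((DD S t).card : ℤ) - 1) * ((v : ℤ) ^ 2 - (X S t).card) ∧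
    ((DD S t).card : ℤ) - 1 ≤ ((X S t).card : ℤ) * ((v : ℤ) - 1) ∧
    0 ≤ ((X S t).card : ℤ) * ((v : ℤ) ^ 2 - (X S t).card) -
      3 * (((X S t).card : ℤ) * ((v : ℤ) - 1)) + 2 * (((DD S t).card : ℤ) - 1) := by
  have hne : ∀ x ∈ X S t, x ≠ 1 := by
    rintro x hx rfl
    obtain ⟨z, hz⟩ := mem_X.1 hx
    exact ht (hz.symm.trans (q_one' h z))
  have hrow : ∀ x ∈ X S t, ∑ b ∈ X S t, (V S x ∩ V S b).card = v * v := by
    intro x hx
    obtain ⟨z, hz⟩ := mem_X.1 hx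
    rw [sum_X h hx, sum_const_nat (m := v), card_C h hz, hv x (hne x hx)]
    intro y hy
    have hy' := mem_C.1 hy
    have hy2 : S.q y x = t := by rw [h.qs2]; exact hy'
    rw [card_C h hy2, hv y]
    exact hne y (mem_X.2 ⟨x, hy2⟩)
  have hr1 : ∀ x b : S.G, 1 ≤ (V S x ∩ V S b).card := fun x b =>
    card_pos.2 ⟨1, mem_inter.2 ⟨one_mem_V h x, one_mem_V h b⟩⟩
  obtain ⟨c, hc⟩ : ∃ c, c = (X S t).card := ⟨_, rfl⟩
  have hc1 : 1 ≤ c := by rw [hc]; exact card_pos.2 ⟨a, ha⟩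
  have h0 : 0 < v := v_pos h hv (hne a ha)
  have hcv : v + (c - 1) ≤ v * v := by
    rw [← hrow a ha, ← add_sum_erase _ _ ha, inter_self, hv a (hne a ha)]
    have : ((X S t).erase a).card * 1 ≤ ∑ b ∈ (X S t).erase a, (V S a ∩ V S b).card := by
      rw [← smul_eq_mul, ← sum_const]
      exact sum_le_sum fun b _ => hr1 a b
    rw [card_erase_of_mem ha, ← hc] at this
    omega
  have hs1 : ∑ y, nn S t y = c * v := by
    rw [sum_nn, hc]
    exact sum_const_nat fun x hx => hv x (hne x hx)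
  have hs2 : ∑ y, nn S t y ^ 2 = c * (v * v) := by
    rw [sum_nn_sq, hc]
    exact sum_const_nat hrow
  have hn1 : nn S t 1 = c := by
    unfold nn
    rw [hc]
    congr 1
    ext x
    simp [one_mem_V h x]
  have hsupp : ∀ y, y ∉ DD S t → nn S t y = 0 := by
    intro y hy
    unfold nn
    rw [card_eq_zero, filter_eq_empty_iff]
    intro x hx hxy
    exact hy (mem_DD.2 ⟨x, hx, hxy⟩)
  have hsupp2 : ∀ y ∈ DD S t, 1 ≤ nn S t y := by
    intro y hy
    obtain ⟨x, hx, hxy⟩ := mem_DD.1 hy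
    exact card_pos.2 ⟨x, mem_filter.2 ⟨hx, hxy⟩⟩
  have h1D : (1 : S.G) ∈ DD S t := mem_DD.2 ⟨a, ha, one_mem_V h a⟩
  set W := (DD S t).erase 1 with hW
  obtain ⟨D, hD⟩ : ∃ D, D = (DD S t).card := ⟨_, rfl⟩
  have hWc : W.card + 1 = D := by
    rw [hW, card_erase_of_mem h1D, hD]
    have : 0 < (DD S t).card := card_pos.2 ⟨1, h1D⟩
    omega
  have hw1 : c + ∑ y ∈ W, nn S t y = c * v := by
    rw [← hs1, ← sum_subset (subset_univ (DD S t)) (fun y _ hy => hsupp y hy),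
      ← add_sum_erase _ _ h1D, hn1]
  have hw2 : c ^ 2 + ∑ y ∈ W, nn S t y ^ 2 = c * (v * v) := by
    rw [← hs2, ← sum_subset (subset_univ (DD S t)) (fun y _ hy => by rw [hsupp y hy]; rfl),
      ← add_sum_erase _ _ h1D, hn1]
  have z1 : ∑ y ∈ W, (nn S t y : ℤ) = c * (v - 1) := by
    have : ((c + ∑ y ∈ W, nn S t y : ℕ) : ℤ) = ((c * v : ℕ) : ℤ) := by rw [hw1]
    push_cast at this
    linarith
  have z2 : ∑ y ∈ W, (nn S t y : ℤ) ^ 2 = c * ((v : ℤ) ^ 2 - c) := by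
    have : ((c ^ 2 + ∑ y ∈ W, nn S t y ^ 2 : ℕ) : ℤ) = ((c * (v * v) : ℕ) : ℤ) := by rw [hw2]
    push_cast at this
    linarith
  have zW : (W.card : ℤ) = D - 1 := by
    have : ((W.card + 1 : ℕ) : ℤ) = (D : ℤ) := by exact_mod_cast hWc
    push_cast at this
    linarith
  have hcz : (1 : ℤ) ≤ c := by exact_mod_cast hc1
  rw [← hc, ← hD]
  refine ⟨?_, hcz, ?_, ?_, ?_⟩
  · have : ((v + (c - 1) : ℕ) : ℤ) ≤ ((v * v : ℕ) : ℤ) := by exact_mod_cast hcv
    push_cast [Nat.cast_sub hc1] at this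
    nlinarith
  · have e1 := sq_sum_le_card_mul_sum_sq (s := W) (f := fun y => (nn S t y : ℤ))
    rw [z1, z2, zW] at e1
    have e2 : (c : ℤ) * (c * (v - 1) ^ 2) ≤ c * ((D - 1) * ((v : ℤ) ^ 2 - c)) := by
      linarith
    exact le_of_mul_le_mul_left e2 (by linarith)
  · rw [← z1, ← zW]
    have : ∑ y ∈ W, (1 : ℤ) ≤ ∑ y ∈ W, (nn S t y : ℤ) := by
      refine sum_le_sum fun y hy => ?_
      have := hsupp2 y (mem_erase.1 hy).2
      exact_mod_cast this
    rw [sum_const, nsmul_eq_mul, mul_one] at this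
    exact this
  · rw [← z1, ← z2, ← zW]
    have : 0 ≤ ∑ y ∈ W, ((nn S t y : ℤ) ^ 2 - 3 * (nn S t y : ℤ) + 2) := by
      refine sum_nonneg fun y hy => ?_
      have e1 := hsupp2 y (mem_erase.1 hy).2
      have e2 : (nn S t y : ℤ) ^ 2 - 3 * (nn S t y : ℤ) + 2 =
          ((nn S t y : ℤ) - 1) * ((nn S t y : ℤ) - 2) := by ring
      rw [e2]
      rcases (by omega : nn S t y = 1 ∨ 2 ≤ nn S t y) with e3 | e3
      · rw [e3]
        norm_num
      · have e4 : (2 : ℤ) ≤ nn S t y := by exact_mod_cast e3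
        exact mul_nonneg (by linarith) (by linarith)
    rw [sum_add_distrib, sum_sub_distrib, ← mul_sum, sum_const, nsmul_eq_mul] at this
    linarith

include h hv in
/-- **The main counting theorem**: the value groups have at most two elements or index at most
two. -/
theorem small_or_large : v ≤ 2 ∨ Fintype.card S.G ≤ 2 * v := by
  by_cases hex : ∃ a : S.G, a ≠ 1
  swap
  · push Not at hex
    have : Fintype.card S.G = 1 := by
      rw [Fintype.card_eq_one_iff]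
      exact ⟨1, hex⟩
    rcases Nat.eq_zero_or_pos v with h0 | h0
    · exact Or.inl (by omega)
    · exact Or.inr (by omega)
  obtain ⟨a, ha⟩ := hex
  by_contra hcon
  push Not at hcon
  obtain ⟨hv2, hg⟩ := hcon
  obtain ⟨n, hn⟩ := card_pow h
  have hvd := V_dvd h a
  rw [hv a ha, hn] at hvd
  obtain ⟨k, -, hk⟩ := (Nat.dvd_prime_pow Nat.prime_two).1 hvd
  obtain ⟨N, hN⟩ : ∃ N, N = (Qs S a).card := ⟨_, rfl⟩
  have hNv : N * v = Fintype.card S.G := by
    rw [hN, ← card_Qs h a, hv a ha]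
  have hNd : N ∣ 2 ^ n := ⟨v, by rw [hNv, hn]⟩
  obtain ⟨l, -, hl⟩ := (Nat.dvd_prime_pow Nat.prime_two).1 hNd
  have hk2 : 2 ≤ k := by
    by_contra hcon
    have : k = 0 ∨ k = 1 := by omega
    rcases this with rfl | rfl
    · rw [hk] at hv2
      norm_num at hv2
    · rw [hk] at hv2
      norm_num at hv2
  have hl2 : 2 ≤ l := by
    by_contra hcon
    have hN2 : N ≤ 2 := by
      have : l = 0 ∨ l = 1 := by omega
      rcases this with rfl | rfl
      · rw [hl]; norm_num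
      · rw [hl]; norm_num
    have : N * v ≤ 2 * v := Nat.mul_le_mul_right _ hN2
    omega
  have hlk := large h hv ha hk (hN ▸ hl) hl2 hk2
  have hN2 : 2 ≤ N := by
    rw [hl]
    calc 2 = 2 ^ 1 := by norm_num
      _ ≤ 2 ^ l := Nat.pow_le_pow_right (by norm_num) (by omega)
  obtain ⟨t, ht, hat, hc⟩ := exists_t h hv ha hN hN2
  obtain ⟨d1, d2, d3, d4, d5⟩ := t_data h hv ht hat
  have hDd := DD_dvd h (t := t) ⟨a, hat⟩
  have hDle : (DD S t).card ≤ N * v := by
    rw [hNv]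
    exact Nat.le_of_dvd Fintype.card_pos hDd
  rw [hn] at hDd
  obtain ⟨m, -, hm⟩ := (Nat.dvd_prime_pow Nat.prime_two).1 hDd
  exact numeric k l m v N (X S t).card (DD S t).card (by exact_mod_cast hk) (by exact_mod_cast hl)
    (by exact_mod_cast hm) hk2 hlk hc d1 (by exact_mod_cast hDle) d3 d4 d5

end

end Pool.Agent.Q6.EV
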