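import Mathlib
import Pool.Agent.Q6.EV.Main2
import Pool.Agent.TH673.VG.Crit

set_option autoImplicit false
set_option linter.unusedSectionVars false

/-!
# Value groups of equal order: elementary type
-/

namespace Pool.Agent.Q6.EV

open Finset
open Pool.Agent.H315R3.ETC Pool.Agent.TH673.VG

open Classical

noncomputable section

/-! ### at most two quaternions -/

section

variable {S : QData} (h : IsQuat S) [Fintype S.G]
variable {v : ℕ} (hv : ∀ a : S.G, a ≠ 1 → (V S a).card = v)

include h in
theorem cap_ge {a b : S.G} (ha : Fintype.card S.G ≤ 2 * (V S a).card)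
    (hb : Fintype.card S.G ≤ 2 * (V S b).card) : (V S a).card ≤ 2 * (V S a ∩ V S b).card := by
  have h1 := card_QQ h a b
  have h2 : (Qs S a).card ≤ 2 := by
    have h3 := card_Qs h a
    have h4 : 0 < (V S a).card := card_pos.2 ⟨1, one_mem_V h a⟩
    by_contra hcon
    push Not at hcon
    have : 3 * (V S a).card ≤ (Qs S a).card * (V S a).card := Nat.mul_le_mul_right _ hcon
    omega
  have h3 : (Qs S (a * b)).card ≤ 2 ∨ True := Or.inr trivial
  -- `V(a) ∩ V(b)` is the set of the elements of `V(a)` orthogonal to `b`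
  have h4 : (V S a).card ≤ (Qs S b).card * (V S a ∩ V S b).card := by
    rw [card_eq_sum_card_fiberwise (f := S.q b) (s := V S a) (t := Qs S b)
      (fun x _ => mem_coe.2 (mem_Qs.2 ⟨x, rfl⟩))]
    rw [← smul_eq_mul, ← sum_const]
    refine sum_le_sum fun t _ => ?_
    by_cases hne : ((V S a).filter (fun x => S.q b x = t)).Nonempty
    · obtain ⟨z, hz⟩ := hne
      rw [mem_filter, mem_V] at hz
      refine card_le_card_of_injOn (fun x => x * z) ?_ ?_
      · intro x hx
        have hx := mem_filter.1 (mem_coe.1 hx)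
        refine mem_coe.2 (mem_inter.2 ⟨mem_V.2 (p_mul h (mem_V.1 hx.1) hz.1), mem_V.2 ?_⟩)
        exact (h.qs3 _ _ _).1 (hx.2.trans hz.2.symm)
      · intro x _ y _ e
        exact mul_right_cancel e
    · rw [not_nonempty_iff_eq_empty] at hne
      rw [hne, card_empty]
      exact Nat.zero_le _
  have h5 : (Qs S b).card ≤ 2 := by
    have h3 := card_Qs h b
    have h4 : 0 < (V S b).card := card_pos.2 ⟨1, one_mem_V h b⟩
    by_contra hcon
    push Not at hcon
    have : 3 * (V S b).card ≤ (Qs S b).card * (V S b).card := Nat.mul_le_mul_right _ hcon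
    omega
  calc (V S a).card ≤ (Qs S b).card * (V S a ∩ V S b).card := h4
    _ ≤ 2 * (V S a ∩ V S b).card := Nat.mul_le_mul_right _ h5

include h hv in
theorem two_of_large (hg : Fintype.card S.G ≤ 2 * v) : TwoValues S := by
  by_cases hex : ∃ a b : S.G, S.q a b ≠ S.zero
  swap
  · push Not at hex
    exact ⟨S.zero, fun a b => Or.inl (hex a b)⟩
  obtain ⟨a, a', haa⟩ := hex
  have ha : a ≠ 1 := by
    rintro rfl
    exact haa (q_one' h a')
  have h0 := v_pos h hv ha
  obtain ⟨N, hN⟩ : ∃ N, N = (Qs S a).card := ⟨_, rfl⟩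
  have hNv : N * v = Fintype.card S.G := by
    rw [hN, ← card_Qs h a, hv a ha]
  have hNge : 2 ≤ N := by
    rw [hN]
    have : ({S.zero, S.q a a'} : Finset S.Q) ⊆ Qs S a := by
      intro t ht
      rw [mem_insert, mem_singleton] at ht
      rcases ht with rfl | rfl
      · exact zero_mem_Qs h a
      · exact mem_Qs.2 ⟨a', rfl⟩
    have h2 := card_le_card this
    rwa [card_pair haa.symm] at h2
  have hN2 : N = 2 := by
    have : N * v ≤ 2 * v := by rw [hNv]; exact hg
    have := Nat.le_of_mul_le_mul_right this h0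
    omega
  have hg2 : Fintype.card S.G = 2 * v := by rw [← hNv, hN2]
  -- the sum of the orders of the intersections
  set B : Finset S.G := (univ.erase 1).erase a with hB
  have hBm : ∀ b, b ∈ B ↔ b ≠ a ∧ b ≠ 1 := fun b => by
    rw [hB, mem_erase, mem_erase]
    exact ⟨fun h => ⟨h.1, h.2.1⟩, fun h => ⟨h.1, h.2, mem_univ _⟩⟩
  have hBc : B.card + 2 = 2 * v := by
    rw [← hg2, hB, card_erase_of_mem (mem_erase.2 ⟨ha, mem_univ a⟩),
      card_erase_of_mem (mem_univ (1 : S.G)), card_univ]
    omega
  have hsum := sum_B h hv ha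
  rw [← hB, hg2] at hsum
  have hge : ∀ b ∈ B, v ≤ 2 * (V S a ∩ V S b).card := by
    intro b hb
    rw [hBm] at hb
    have := cap_ge h (a := a) (b := b) (by rw [hv a ha]; exact hg) (by rw [hv b hb.2]; exact hg)
    rwa [hv a ha] at this
  have heq : ∀ b ∈ B, v = 2 * (V S a ∩ V S b).card := by
    have h1 : ∑ b ∈ B, v = ∑ b ∈ B, 2 * (V S a ∩ V S b).card := by
      refine le_antisymm (sum_le_sum hge) ?_
      rw [← mul_sum, sum_const, smul_eq_mul]
      obtain ⟨v', hv'⟩ : ∃ v', v = v' + 1 := ⟨v - 1, by omega⟩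
      have e1 : B.card = 2 * v' := by omega
      have e2 : (v - 1) * v = v' * v := by rw [hv', Nat.add_sub_cancel]
      rw [e2] at hsum
      rw [e1]
      have e3 : ∑ b ∈ B, (V S a ∩ V S b).card = v' * v := by omega
      rw [e3]
      exact le_of_eq (by ring)
    exact (sum_eq_sum_iff_of_le hge).1 h1
  refine ⟨S.q a a', fun b c => ?_⟩
  by_cases hbc : S.q b c = S.zero
  · exact Or.inl hbc
  right
  have hb1 : b ≠ 1 := by
    rintro rfl
    exact hbc (q_one' h c)
  have hQa : Qs S a = {S.zero, S.q a a'} := by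
    symm
    refine eq_of_subset_of_card_le ?_ ?_
    · intro t ht
      rw [mem_insert, mem_singleton] at ht
      rcases ht with rfl | rfl
      · exact zero_mem_Qs h a
      · exact mem_Qs.2 ⟨a', rfl⟩
    · rw [card_pair haa.symm, ← hN, hN2]
  by_cases hab : b = a
  · subst hab
    have : S.q b c ∈ Qs S b := mem_Qs.2 ⟨c, rfl⟩
    rw [hQa, mem_insert, mem_singleton] at this
    exact this.resolve_left hbc
  · have h1 := heq b ((hBm b).2 ⟨hab, hb1⟩)
    have h2 := card_QQ h a b
    rw [hv (a * b) (fun e => hab (eq_of_mul h _ _ e).symm)] at h2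
    have h3 : 0 < (V S a ∩ V S b).card :=
      card_pos.2 ⟨1, mem_inter.2 ⟨one_mem_V h a, one_mem_V h b⟩⟩
    have h4 : (Qs S a ∩ Qs S b).card = 2 :=
      Nat.eq_of_mul_eq_mul_right h3 (h2.trans h1)
    have h5 : Qs S a ∩ Qs S b = Qs S a :=
      eq_of_subset_of_card_le inter_subset_left (by rw [h4, ← hN, hN2])
    have h6 : Qs S a ∩ Qs S b = Qs S b := by
      refine eq_of_subset_of_card_le inter_subset_right ?_
      have e3 := card_Qs h b
      rw [hv _ hb1, hg2] at e3
      rw [h4, Nat.eq_of_mul_eq_mul_right h0 e3]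
    have h7 : S.q b c ∈ Qs S a := by
      rw [← h5, h6]
      exact mem_Qs.2 ⟨c, rfl⟩
    rw [hQa, mem_insert, mem_singleton] at h7
    exact h7.resolve_left hbc

end

/-! ### the quotient by the radical -/

section quot

variable {S : QData} (h : IsQuat S)

/-- the radical -/
def Rad (h : IsQuat S) : Subgroup S.G where
  carrier := {a | ∀ x, S.q a x = S.zero}
  one_mem' := fun x => q_one' h x
  mul_mem' := by
    intro a b ha hb x
    rw [h.qs2]
    exact p_mul h (by rw [h.qs2]; exact ha x) (by rw [h.qs2]; exact hb x)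
  inv_mem' := by
    intro a ha
    have : a⁻¹ = a := inv_eq_iff_mul_eq_one.2 (h.exp2 a)
    rw [this]
    exact ha

theorem mem_Rad {a : S.G} : a ∈ Rad h ↔ ∀ x, S.q a x = S.zero := Iff.rfl

/-- the quotient structure -/
def Quo (h : IsQuat S) : QData where
  G := S.G ⧸ Rad h
  Q := S.Q
  neg := QuotientGroup.mk S.neg
  q := fun x y => S.q x.out y.out
  zero := S.zero

theorem q_rad {a r b : S.G} (hr : r ∈ Rad h) : S.q (a * r) b = S.q a b := by
  rw [h.qs2, mul_comm a r, q_shift h, h.qs2]
  rw [h.qs2]
  exact hr b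

theorem quo_q (a b : S.G) :
    (Quo h).q (QuotientGroup.mk a : S.G ⧸ Rad h) (QuotientGroup.mk b : S.G ⧸ Rad h) = S.q a b := by
  change S.q (QuotientGroup.mk a : S.G ⧸ Rad h).out (QuotientGroup.mk b : S.G ⧸ Rad h).out = _
  obtain ⟨r, hr⟩ := QuotientGroup.mk_out_eq_mul (Rad h) a
  obtain ⟨s, hs⟩ := QuotientGroup.mk_out_eq_mul (Rad h) b
  rw [hr, hs, q_rad h r.2, h.qs2, q_rad h s.2, h.qs2]

theorem quo_isQuat : IsQuat (Quo h) where
  exp2 := by
    intro (a : S.G ⧸ Rad h)
    induction a using QuotientGroup.induction_on with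
    | H a =>
      change (QuotientGroup.mk (a * a) : S.G ⧸ Rad h) = QuotientGroup.mk 1
      rw [h.exp2]
  qs1 := by
    intro (a : S.G ⧸ Rad h)
    induction a using QuotientGroup.induction_on with
    | H a => exact (quo_q h a (S.neg * a)).trans (h.qs1 a)
  qs2 := by
    intro (a : S.G ⧸ Rad h) (b : S.G ⧸ Rad h)
    exact h.qs2 _ _
  qs3 := by
    intro (a : S.G ⧸ Rad h) (b : S.G ⧸ Rad h) (c : S.G ⧸ Rad h)
    induction a using QuotientGroup.induction_on with
    | H a =>
      induction b using QuotientGroup.induction_on with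
      | H b =>
        induction c using QuotientGroup.induction_on with
        | H c =>
          have e1 := quo_q h a b
          have e2 := quo_q h a c
          have e3 := quo_q h a (b * c)
          have e4 := h.qs3 a b c
          rw [← e1, ← e2, ← e3] at e4
          exact e4
  qs4 := by
    intro (a : S.G ⧸ Rad h) (b : S.G ⧸ Rad h) (c : S.G ⧸ Rad h) (d : S.G ⧸ Rad h)
    induction a using QuotientGroup.induction_on with
    | H a =>
      induction b using QuotientGroup.induction_on with
      | H b =>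
        induction c using QuotientGroup.induction_on with
        | H c =>
          induction d using QuotientGroup.induction_on with
          | H d =>
            intro e
            have e1 := quo_q h a b
            have e2 := quo_q h c d
            have e' : S.q a b = S.q c d := by
              rw [← e1, ← e2]
              exact e
            obtain ⟨x, h1, h2⟩ := h.qs4 a b c d e'
            refine ⟨(QuotientGroup.mk x : S.G ⧸ Rad h), ?_, ?_⟩
            · exact (quo_q h a b).trans (h1.trans (quo_q h a x).symm)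
            · exact (quo_q h c d).trans (h2.trans (quo_q h c x).symm)

/-- the projection -/
def pi (h : IsQuat S) : S.G →* (Quo h).G := QuotientGroup.mk' (Rad h)

theorem pi_q (a b : S.G) : (Quo h).q (pi h a) (pi h b) = S.q a b := quo_q h a b

theorem pi_surj : Function.Surjective (pi h) := QuotientGroup.mk'_surjective (Rad h)

theorem pi_ker : (pi h).ker = Rad h := QuotientGroup.ker_mk' (Rad h)

theorem pi_one {a : S.G} : pi h a = 1 ↔ a ∈ Rad h := by
  rw [← pi_ker h]
  exact MonoidHom.mem_ker.symm

theorem quo_D (a : S.G) : (D (quo_isQuat h) (pi h a)).comap (pi h) = D h a := by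
  ext x
  rw [Subgroup.mem_comap, mem_D (quo_isQuat h), mem_D h, pi_q h]
  exact Iff.rfl

theorem quo_index (a : S.G) : (D (quo_isQuat h) (pi h a)).index = (D h a).index := by
  rw [← quo_D h a, Subgroup.index_comap_of_surjective _ (pi_surj h)]

end quot

end

end Pool.Agent.Q6.EV
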