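import Mathlib
import Pool.Agent.Q6.EV.Final
import Pool.Agent.TH673.VG.CritInd

set_option autoImplicit false
set_option linter.unusedSectionVars false

/-!
# Value groups of equal order: the theorem
-/

namespace Pool.Agent.Q6.EV

open Finset
open Pool.Agent.H315R3.ETC Pool.Agent.TH673.VG

open Classical

noncomputable section

theorem card_D {S : QData} (h : IsQuat S) [Fintype S.G] (a : S.G) :
    Nat.card (D h a) = (V S a).card := by
  have : ((D h a : Subgroup S.G) : Set S.G) = (V S a : Set S.G) := by
    ext x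
    rw [mem_coe, mem_V]
    exact Iff.rfl
  change Nat.card ((D h a : Subgroup S.G) : Set S.G) = _
  rw [this, Nat.card_coe_set_eq, Set.ncard_coe_finset]

theorem elem_of_stepAll {S : QData} (h : IsQuat S) [Finite S.G] (hs : StepAll S) : Elem S :=
  elem_of_step h fun H hH _ => stepTwo_of_step (hs H hH)

theorem elem_of_two {S : QData} (h : IsQuat S) [Finite S.G] (ht : TwoValues S) : Elem S :=
  elem_of_stepAll h (step_two h ht)

section

variable {S : QData} (h : IsQuat S)

/-- value groups with at most two elements modulo the radical -/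
theorem tri [Fintype (Quo h).G] {a x : S.G} (hcard : (V (Quo h) (pi h a)).card ≤ 2)
    (hx : S.q a x = S.zero) : x ∈ Rad h ∨ S.neg * a ∈ Rad h ∨ x * (S.neg * a) ∈ Rad h := by
  by_contra hcon
  push Not at hcon
  obtain ⟨h1, h2, h3⟩ := hcon
  have hsub : ({1, pi h x, pi h (S.neg * a)} : Finset (Quo h).G) ⊆ V (Quo h) (pi h a) := by
    intro y hy
    rw [mem_insert, mem_insert, mem_singleton] at hy
    rcases hy with rfl | rfl | rfl
    · exact one_mem_V (quo_isQuat h) _
    · exact mem_V.2 ((pi_q h a x).trans hx)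
    · exact mem_V.2 ((pi_q h a _).trans (h.qs1 a))
  have hle := (card_le_card hsub).trans hcard
  have hthree : ({1, pi h x, pi h (S.neg * a)} : Finset (Quo h).G).card = 3 := by
    rw [card_eq_three]
    refine ⟨1, pi h x, pi h (S.neg * a), ?_, ?_, ?_, rfl⟩
    · exact fun e => h1 ((pi_one h).1 e.symm)
    · exact fun e => h2 ((pi_one h).1 e.symm)
    · intro e
      apply h3
      rw [← pi_one h, map_mul, e, (quo_isQuat h).exp2]
  omega

theorem step_small [Fintype (Quo h).G]
    (hcard : ∀ a : S.G, a ∉ Rad h → (V (Quo h) (pi h a)).card ≤ 2) : StepAll S := by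
  intro H hH
  by_cases hR : Rad h ≤ H
  swap
  · obtain ⟨r, hr, hrH⟩ := SetLike.not_le_iff_exists.1 hR
    exact ⟨r, hrH, fun g _ x _ => ⟨x, 1, hr x, H.one_mem, mul_one x⟩⟩
  by_cases hn : S.neg ∈ H
  · obtain ⟨a, ha⟩ := exists_notMem hH
    refine ⟨a, ha, fun g hg x hx => ?_⟩
    have hag : a * g ∉ H := fun e => ha ((H.mul_mem_cancel_right hg).1 e)
    rcases tri h (hcard _ fun e => hag (hR e)) hx with h1 | h1 | h1
    · exact ⟨1, x, q_one h a, hR h1, one_mul x⟩
    · exact absurd ((H.mul_mem_cancel_left hn).1 (hR h1)) hag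
    · refine ⟨S.neg * a, g * (x * (S.neg * (a * g))), h.qs1 a, H.mul_mem hg (hR h1), ?_⟩
      have : S.neg * a * (g * (x * (S.neg * (a * g)))) =
          x * ((S.neg * (a * g)) * (S.neg * (a * g))) := by
        simp only [mul_comm, mul_left_comm]
      rw [this, h.exp2, mul_one]
  · refine ⟨S.neg, hn, fun g hg x hx => ?_⟩
    have hag : S.neg * g ∉ H := fun e => hn ((H.mul_mem_cancel_right hg).1 e)
    have hnn : S.neg * (S.neg * g) = g := by rw [← mul_assoc, h.exp2, one_mul]
    rcases tri h (hcard _ fun e => hag (hR e)) hx with h1 | h1 | h1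
    · exact ⟨1, x, q_one h _, hR h1, one_mul x⟩
    · rw [hnn] at h1
      refine ⟨x, 1, ?_, H.one_mem, mul_one x⟩
      rw [q_rad h h1] at hx
      exact hx
    · rw [hnn] at h1
      refine ⟨1, x, q_one h _, ?_, one_mul x⟩
      exact (H.mul_mem_cancel_right hg).1 (hR h1)

/-- **Main theorem**: if all value groups different from `G` have the same index, the structure is
of elementary type; more precisely it has at most two quaternions, or the order of the value groups
different from `G` is twice the order of the radical. -/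
theorem main (hf : Finite S.G)
    (heq : ∀ a b : S.G, a ∉ Rad h → b ∉ Rad h → (D h a).index = (D h b).index) :
    Elem S ∧ (TwoValues S ∨ ∀ a : S.G, a ∉ Rad h → Nat.card (D h a) = 2 * Nat.card (Rad h)) := by
  by_cases hT : TwoValues S
  · exact ⟨elem_of_two h hT, Or.inl hT⟩
  have hfq : Finite (Quo h).G := Finite.of_surjective _ (pi_surj h)
  have : Fintype (Quo h).G := Fintype.ofFinite _
  have hQ := quo_isQuat h
  -- a nontrivial element
  obtain ⟨a0, ha0⟩ : ∃ a0 : S.G, a0 ∉ Rad h := by
    by_contra hcon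
    push Not at hcon
    exact hT ⟨S.zero, fun a b => Or.inl (hcon a b)⟩
  obtain ⟨v, hv0⟩ : ∃ v, v = (V (Quo h) (pi h a0)).card := ⟨_, rfl⟩
  have hv1 : ∀ a : S.G, a ∉ Rad h → (V (Quo h) (pi h a)).card = v := by
    intro a ha
    have e1 : (D hQ (pi h a)).index = (D hQ (pi h a0)).index := by
      rw [quo_index h, quo_index h, heq a a0 ha ha0]
    have e2 := (D hQ (pi h a)).card_mul_index
    have e3 := (D hQ (pi h a0)).card_mul_index
    rw [e1, ← e3, card_D, card_D, ← hv0] at e2
    exact Nat.eq_of_mul_eq_mul_right (Nat.pos_of_ne_zero Subgroup.FiniteIndex.index_ne_zero) e2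
  have hv : ∀ x : (Quo h).G, x ≠ 1 → (V (Quo h) x).card = v := by
    intro x hx
    obtain ⟨a, rfl⟩ := pi_surj h x
    exact hv1 a fun e => hx ((pi_one h).2 e)
  have hpi0 : pi h a0 ≠ 1 := fun e => ha0 ((pi_one h).1 e)
  have hno : ¬ Fintype.card (Quo h).G ≤ 2 * v := by
    intro hle
    apply hT
    obtain ⟨t, ht⟩ := two_of_large hQ hv hle
    refine ⟨t, fun a b => ?_⟩
    rw [← pi_q h a b]
    exact ht _ _
  have hv2 : v ≤ 2 := (small_or_large hQ hv).resolve_right hno
  refine ⟨elem_of_stepAll h (step_small h fun a ha => by rw [hv1 a ha]; exact hv2), Or.inr ?_⟩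
  have hvpos : 0 < v := v_pos hQ hv hpi0
  have hveq : v = 2 := by
    by_contra hne
    have hv1' : v = 1 := by omega
    apply hno
    have hall : ∀ x : (Quo h).G, x = 1 ∨ x = (Quo h).neg := by
      intro x
      by_cases hx : x = 1
      · exact Or.inl hx
      right
      have e1 := hv x hx
      rw [hv1'] at e1
      obtain ⟨w, hw⟩ := card_eq_one.1 e1
      have m1 : (1 : (Quo h).G) ∈ V (Quo h) x := one_mem_V hQ x
      have m2 : (Quo h).neg * x ∈ V (Quo h) x := mem_V.2 (hQ.qs1 x)
      rw [hw, mem_singleton] at m1 m2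
      have m3 : (Quo h).neg * x = 1 := m2.trans m1.symm
      exact (eq_of_mul hQ _ _ m3).symm
    have hsub : (univ : Finset (Quo h).G) ⊆ {1, (Quo h).neg} := by
      intro x _
      rw [mem_insert, mem_singleton]
      exact hall x
    have := card_le_card hsub
    rw [card_univ] at this
    have h2 : ({1, (Quo h).neg} : Finset (Quo h).G).card ≤ 2 := card_le_two
    omega
  intro a ha
  have e1 := (D h a).card_mul_index
  have e2 := (D hQ (pi h a)).card_mul_index
  rw [quo_index h, card_D, hv1 a ha, hveq] at e2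
  have e3 : Nat.card S.G = Nat.card (Quo h).G * Nat.card (Rad h) :=
    Subgroup.card_eq_card_quotient_mul_card_subgroup (Rad h)
  rw [e3, ← e2] at e1
  have hpos : 0 < (D h a).index := Nat.pos_of_ne_zero Subgroup.FiniteIndex.index_ne_zero
  have e4 : Nat.card (D h a) * (D h a).index = 2 * Nat.card (Rad h) * (D h a).index := by
    rw [e1]
    ring
  exact Nat.eq_of_mul_eq_mul_right hpos e4

end

end

end Pool.Agent.Q6.EV
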